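import Mathlib
import Pool.Agent.W66.PH

set_option autoImplicit false

/-!
# Mean square over the dilations of the discrepancy of the primes
-/

open Complex Filter Topology Set MeasureTheory Metric
open scoped Real FourierTransform Convolution

namespace Pool.Agent.Run7.h129.BH

open Pool.Agent.W66

lemma four_sum' {ι : Type*} {f : ℝ → ℂ} (hf : Integrable f) (s : Finset ι) (c : ι → ℂ) (a : ι → ℝ)
    (ξ : ℝ) : 𝓕 (fun x => ∑ i ∈ s, c i * f (x - a i)) ξ =
      (∑ i ∈ s, c i * cexp (-(((2 * π * ξ * a i : ℝ) : ℂ) * I))) * 𝓕 f ξ := by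
  have h1 : ∀ i, Integrable fun v : ℝ => cexp (-(((2 * π * ξ * v : ℝ) : ℂ) * I)) *
      (c i * f (v - a i)) := by
    intro i
    have h2 : Integrable fun v : ℝ => c i * f (v - a i) := (hf.comp_sub_right (a i)).const_mul _
    refine h2.bdd_mul (c := 1) (by fun_prop) (Eventually.of_forall fun v => ?_)
    rw [show -(((2 * π * ξ * v : ℝ) : ℂ) * I) = ((-(2 * π * ξ * v) : ℝ) : ℂ) * I by push_cast; ring,
      Complex.norm_exp_ofReal_mul_I]
  rw [four_eq]
  have h2 : ∀ v : ℝ, cexp (-(((2 * π * ξ * v : ℝ) : ℂ) * I)) * ∑ i ∈ s, c i * f (v - a i) =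
      ∑ i ∈ s, cexp (-(((2 * π * ξ * v : ℝ) : ℂ) * I)) * (c i * f (v - a i)) := fun v => by
    rw [Finset.mul_sum]
  simp only [h2]
  rw [integral_finsetSum _ fun i _ => h1 i, Finset.sum_mul]
  apply Finset.sum_congr rfl
  intro i _
  have h3 := four_shift f (a i) ξ
  rw [four_eq] at h3
  have h4 : c i * cexp (-(((2 * π * ξ * a i : ℝ) : ℂ) * I)) * 𝓕 f ξ =
    c i * (cexp (-(((2 * π * ξ * a i : ℝ) : ℂ) * I)) * 𝓕 f ξ) := by ring
  rw [h4, ← h3, ← integral_const_mul]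
  congr 1
  ext v
  ring

/-- the smoothed discrepancy of the primes near `e^u` -/
noncomputable def DD (u h : ℝ) (N : ℕ) (x : ℝ) : ℝ :=
  ∑ n ∈ Finset.Ioc 0 N, ArithmeticFunction.vonMangoldt n / n * hat (u - Real.log n) *
    tri h (x - Real.log n) - ∫ v : ℝ, hat (u - v) * tri h (x - v)

lemma gg_one (h x : ℝ) : gg h {1} (fun _ => 1) x = tri h x := by
  unfold gg
  rw [Finset.sum_singleton]
  simp

lemma bb_one (h x : ℝ) : bb h {1} (fun _ => 1) x = box h x := by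
  unfold bb
  rw [Finset.sum_singleton]
  simp

lemma DD_eq (u h : ℝ) (N : ℕ) : DD u h N = FF u h N {1} (fun _ => 1) := by
  ext x
  unfold DD FF
  simp only [gg_one]

lemma DD_continuous {h : ℝ} (hh : 0 < h) (u : ℝ) (N : ℕ) : Continuous (DD u h N) := by
  rw [DD_eq]; exact FF_continuous hh u N _ _

lemma DD_compact {h : ℝ} (hh : 0 < h) (u : ℝ) (N : ℕ) : HasCompactSupport (DD u h N) := by
  rw [DD_eq]; exact FF_compact hh u N _ _

lemma four_DD {u h : ℝ} (hu : 1 ≤ u) (hh : 0 < h) (N : ℕ) (hN : Real.exp (u + 1) ≤ N) (ξ : ℝ) :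
    𝓕 (fun x => ((DD u h N x : ℝ) : ℂ)) ξ =
      (PS u (2 * π * ξ) - PT u (2 * π * ξ)) * 𝓕 (boxC h) ξ * 𝓕 (boxC h) ξ := by
  have h1 := four_FF hu hh N hN {1} (fun _ => 1) ξ
  rw [← DD_eq] at h1
  have e : (fun x => ((bb h {1} (fun _ => 1) x : ℝ) : ℂ)) = boxC h := by
    ext x
    rw [bb_one]
    rfl
  rw [h1, e]

/-- the sum over the dilations -/
noncomputable def FS (u h : ℝ) (N : ℕ) (S : Finset ℕ) (a : ℕ → ℝ) (x : ℝ) : ℝ :=
  ∑ m ∈ S, DD u h N (x + a m)

/-- the exponential sum -/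
noncomputable def AA (S : Finset ℕ) (a : ℕ → ℝ) (ξ : ℝ) : ℂ :=
  ∑ m ∈ S, cexp (((2 * π * ξ * a m : ℝ) : ℂ) * I)

lemma FS_continuous {h : ℝ} (hh : 0 < h) (u : ℝ) (N : ℕ) (S : Finset ℕ) (a : ℕ → ℝ) :
    Continuous (FS u h N S a) := by
  unfold FS
  apply continuous_finsetSum
  intro m _
  exact (DD_continuous hh u N).comp (by fun_prop)

lemma FS_compact {h : ℝ} (hh : 0 < h) (u : ℝ) (N : ℕ) (S : Finset ℕ) (a : ℕ → ℝ) :
    HasCompactSupport (FS u h N S a) := by
  classical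
  unfold FS
  induction S using Finset.induction_on with
  | empty =>
    simp only [Finset.sum_empty]
    exact HasCompactSupport.zero
  | insert b s hb ih =>
    have h1 : HasCompactSupport fun x => DD u h N (x + a b) :=
      (DD_compact hh u N).comp_homeomorph (Homeomorph.addRight (a b))
    have h2 : (fun x => ∑ m ∈ insert b s, DD u h N (x + a m)) =
        (fun x => DD u h N (x + a b)) + fun x => ∑ m ∈ s, DD u h N (x + a m) := by
      ext x
      rw [Finset.sum_insert hb]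
      rfl
    rw [h2]
    exact h1.add ih

lemma four_FS {u h : ℝ} (hu : 1 ≤ u) (hh : 0 < h) (N : ℕ) (hN : Real.exp (u + 1) ≤ N)
    (S : Finset ℕ) (a : ℕ → ℝ) (ξ : ℝ) :
    𝓕 (fun x => ((FS u h N S a x : ℝ) : ℂ)) ξ = AA S a ξ *
      ((PS u (2 * π * ξ) - PT u (2 * π * ξ)) * 𝓕 (boxC h) ξ * 𝓕 (boxC h) ξ) := by
  have hint : Integrable fun x => ((DD u h N x : ℝ) : ℂ) :=
    ((DD_continuous hh u N).integrable_of_hasCompactSupport (DD_compact hh u N)).ofReal
  have h1 := four_sum' hint S (fun _ => 1) (fun m => - a m) ξ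
  have e1 : (fun x => ∑ i ∈ S, (1 : ℂ) * ((DD u h N (x - -a i) : ℝ) : ℂ)) =
      fun x => ((FS u h N S a x : ℝ) : ℂ) := by
    ext x
    unfold FS
    push_cast
    refine Finset.sum_congr rfl fun m _ => ?_
    rw [one_mul, sub_neg_eq_add]
  rw [e1] at h1
  rw [h1, four_DD hu hh N hN]
  congr 1
  unfold AA
  refine Finset.sum_congr rfl fun m _ => ?_
  rw [one_mul]
  congr 1
  push_cast
  ring

/-- the first factor in physical space -/
noncomputable def qq (u h : ℝ) (N : ℕ) (x : ℝ) : ℝ :=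
  ∑ n ∈ Finset.Ioc 0 N, ArithmeticFunction.vonMangoldt n / n * hat (u - Real.log n) *
    box h (x - Real.log n) - ∫ v : ℝ, hat (u - v) * box h (x - v)

lemma box_compact (h : ℝ) : HasCompactSupport (box h) := by
  rw [box_eq]
  exact HasCompactSupport.intro isCompact_Icc fun x hx => Set.indicator_of_notMem hx _

lemma box_memLp (h : ℝ) : MemLp (box h) 2 := by
  rw [box_eq]
  exact memLp_indicator_const 2 measurableSet_Icc _ (Or.inr (by simp))

/-- the convolution of the hat and the box -/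
noncomputable def hb (u h x : ℝ) : ℝ := ∫ v : ℝ, hat (u - v) * box h (x - v)

lemma hb_eq (u h : ℝ) : hb u h =
    ((fun v => hat (u - v)) ⋆[ContinuousLinearMap.mul ℝ ℝ] (box h)) := by
  ext x
  rw [MeasureTheory.convolution_def]
  rfl

lemma hb_continuous (u h : ℝ) : Continuous (hb u h) := by
  rw [hb_eq]
  exact (hatu_compact u).continuous_convolution_left _ (hatu_continuous u)
    (box_integrable h).locallyIntegrable

lemma hb_compact (u h : ℝ) : HasCompactSupport (hb u h) := by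
  rw [hb_eq]
  exact HasCompactSupport.convolution _ (hatu_compact u) (box_compact h)

/-- the prime part -/
noncomputable def pb (u h : ℝ) (N : ℕ) (x : ℝ) : ℝ :=
  ∑ n ∈ Finset.Ioc 0 N, ArithmeticFunction.vonMangoldt n / n * hat (u - Real.log n) *
    box h (x - Real.log n)

lemma qq_eq (u h : ℝ) (N : ℕ) : qq u h N = fun x => pb u h N x - hb u h x := rfl

lemma pb_integrable (u h : ℝ) (N : ℕ) : Integrable (pb u h N) :=
  integrable_finsetSum _ fun l _ => ((box_integrable h).comp_sub_right (Real.log l)).const_mul _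

lemma pb_memLp (u h : ℝ) (N : ℕ) : MemLp (pb u h N) 2 := by
  unfold pb
  apply memLp_finsetSum
  intro l _
  exact ((box_memLp h).comp_measurePreserving
    (measurePreserving_sub_right volume (Real.log l))).const_mul _

lemma hb_integrable (u h : ℝ) : Integrable (hb u h) :=
  (hb_continuous u h).integrable_of_hasCompactSupport (hb_compact u h)

lemma hb_memLp (u h : ℝ) : MemLp (hb u h) 2 :=
  (hb_continuous u h).memLp_of_hasCompactSupport (hb_compact u h)

lemma qq_integrable (u h : ℝ) (N : ℕ) : Integrable (qq u h N) := by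
  rw [qq_eq]; exact (pb_integrable u h N).sub (hb_integrable u h)

lemma qq_memLp (u h : ℝ) (N : ℕ) : MemLp (qq u h N) 2 := by
  rw [qq_eq]; exact (pb_memLp u h N).sub (hb_memLp u h)

lemma four_sub {f g : ℝ → ℂ} (hf : Integrable f) (hg : Integrable g) (ξ : ℝ) :
    𝓕 (fun x => f x - g x) ξ = 𝓕 f ξ - 𝓕 g ξ := by
  have hb : ∀ {f : ℝ → ℂ}, Integrable f → Integrable fun v : ℝ =>
      cexp (-(((2 * π * ξ * v : ℝ) : ℂ) * I)) * f v := by
    intro f hf
    refine hf.bdd_mul (c := 1) (by fun_prop) (Eventually.of_forall fun v => ?_)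
    rw [show -(((2 * π * ξ * v : ℝ) : ℂ) * I) = ((-(2 * π * ξ * v) : ℝ) : ℂ) * I by
      push_cast; ring, Complex.norm_exp_ofReal_mul_I]
  rw [four_eq, four_eq, four_eq, ← integral_sub (hb hf) (hb hg)]
  congr 1
  ext v
  ring

lemma qqC_integrable (u h : ℝ) (N : ℕ) : Integrable fun x => ((qq u h N x : ℝ) : ℂ) :=
  (qq_integrable u h N).ofReal

lemma qqC_memLp (u h : ℝ) (N : ℕ) : MemLp (fun x => ((qq u h N x : ℝ) : ℂ)) 2 :=
  (qq_memLp u h N).ofReal

lemma four_qq {u h : ℝ} (hu : 1 ≤ u) (N : ℕ) (hN : Real.exp (u + 1) ≤ N) (ξ : ℝ) :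
    𝓕 (fun x => ((qq u h N x : ℝ) : ℂ)) ξ =
      (PS u (2 * π * ξ) - PT u (2 * π * ξ)) * 𝓕 (boxC h) ξ := by
  have e0 : (fun x => ((qq u h N x : ℝ) : ℂ)) =
      fun x => ((pb u h N x : ℝ) : ℂ) - ((hb u h x : ℝ) : ℂ) := by
    ext x
    rw [qq_eq]
    push_cast
    rfl
  have i1 : Integrable fun x => ((pb u h N x : ℝ) : ℂ) := (pb_integrable u h N).ofReal
  have i2 : Integrable fun x => ((hb u h x : ℝ) : ℂ) := (hb_integrable u h).ofReal
  rw [e0, four_sub i1 i2]
  have e1 : (fun x => ((pb u h N x : ℝ) : ℂ)) = fun x => ∑ n ∈ Finset.Ioc 0 N,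
      ((ArithmeticFunction.vonMangoldt n / n * hat (u - Real.log n) : ℝ) : ℂ) *
        boxC h (x - Real.log n) := by
    ext x
    unfold pb boxC
    push_cast
    rfl
  have e2 : (fun x => ((hb u h x : ℝ) : ℂ)) =
      ((fun v : ℝ => ((hat (u - v) : ℝ) : ℂ)) ⋆[ContinuousLinearMap.mul ℂ ℂ] (boxC h)) := by
    ext x
    rw [MeasureTheory.convolution_def]
    simp only [ContinuousLinearMap.mul_apply']
    unfold hb boxC
    rw [← integral_complex_ofReal]
    congr 1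
    ext v
    push_cast
    rfl
  have hhint : Integrable fun v : ℝ => ((hat (u - v) : ℝ) : ℂ) := (hatu_integrable u).ofReal
  rw [e1, e2, four_sum' (boxC_integrable h),
    Real.fourier_mul_convolution_eq hhint (boxC_integrable h), PS_fin u ξ N hN, PT_full hu]
  ring

/-- the power of the second factor in physical space -/
noncomputable def gk (S : Finset ℕ) (a : ℕ → ℝ) (k : ℕ) (h x : ℝ) : ℝ :=
  ∑ p ∈ Fintype.piFinset (fun _ : Fin k => S), box h (x + ∑ i, a (p i))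

lemma gk_integrable (S : Finset ℕ) (a : ℕ → ℝ) (k : ℕ) (h : ℝ) : Integrable (gk S a k h) :=
  integrable_finsetSum _ fun p _ => (box_integrable h).comp_add_right (∑ i, a (p i))

lemma gk_memLp (S : Finset ℕ) (a : ℕ → ℝ) (k : ℕ) (h : ℝ) : MemLp (gk S a k h) 2 := by
  unfold gk
  apply memLp_finsetSum
  intro p _
  exact (box_memLp h).comp_measurePreserving (measurePreserving_add_right volume _)

lemma AA_pow (S : Finset ℕ) (a : ℕ → ℝ) (k : ℕ) (ξ : ℝ) : AA S a ξ ^ k =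
    ∑ p ∈ Fintype.piFinset (fun _ : Fin k => S), cexp (((2 * π * ξ * ∑ i, a (p i) : ℝ) : ℂ) * I) := by
  unfold AA
  have h1 := Finset.prod_univ_sum (fun _ : Fin k => S)
    (fun (_ : Fin k) (m : ℕ) => cexp (((2 * π * ξ * a m : ℝ) : ℂ) * I))
  rw [Finset.prod_const, Finset.card_univ, Fintype.card_fin] at h1
  rw [h1]
  refine Finset.sum_congr rfl fun p _ => ?_
  rw [← Complex.exp_sum]
  congr 1
  rw [← Finset.sum_mul]
  congr 1
  push_cast
  rw [Finset.mul_sum]

lemma four_gk (S : Finset ℕ) (a : ℕ → ℝ) (k : ℕ) (h ξ : ℝ) :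
    𝓕 (fun x => ((gk S a k h x : ℝ) : ℂ)) ξ = AA S a ξ ^ k * 𝓕 (boxC h) ξ := by
  have h1 := four_sum' (boxC_integrable h) (Fintype.piFinset (fun _ : Fin k => S)) (fun _ => 1)
    (fun p => - ∑ i, a (p i)) ξ
  have e1 : (fun x => ∑ p ∈ Fintype.piFinset (fun _ : Fin k => S),
      (1 : ℂ) * boxC h (x - -∑ i, a (p i))) = fun x => ((gk S a k h x : ℝ) : ℂ) := by
    ext x
    unfold gk boxC
    push_cast
    refine Finset.sum_congr rfl fun m _ => ?_
    rw [one_mul, sub_neg_eq_add]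
  rw [e1] at h1
  rw [h1, AA_pow]
  congr 1
  refine Finset.sum_congr rfl fun m _ => ?_
  rw [one_mul]
  congr 1
  push_cast
  ring

/-- the elementary inequality -/
lemma elem {P Q L M2 : ℝ} {k : ℕ} (hk : 1 ≤ k) (hP : 0 ≤ P) (hQ : 0 ≤ Q) (hQM : Q ≤ M2) (hL : 0 < L) :
    P * Q ≤ L * Q + M2 / L ^ (k - 1) * P ^ k := by
  have hLk : 0 < L ^ (k - 1) := by positivity
  have hM2 : 0 ≤ M2 := hQ.trans hQM
  rcases le_total P L with h | h
  · have h1 : P * Q ≤ L * Q := mul_le_mul_of_nonneg_right h hQ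
    have h2 : 0 ≤ M2 / L ^ (k - 1) * P ^ k := by positivity
    linarith
  · have h1 : P ≤ P ^ k / L ^ (k - 1) := by
      rw [le_div_iff₀ hLk]
      have h2 : L ^ (k - 1) ≤ P ^ (k - 1) := pow_le_pow_left₀ hL.le h _
      calc P * L ^ (k - 1) ≤ P * P ^ (k - 1) := mul_le_mul_of_nonneg_left h2 hP
        _ = P ^ k := by rw [← pow_succ']; congr 1; omega
    have h2 : P * Q ≤ P ^ k / L ^ (k - 1) * M2 := mul_le_mul h1 hQM hQ (by positivity)
    have h3 : 0 ≤ L * Q := by positivity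
    calc P * Q ≤ P ^ k / L ^ (k - 1) * M2 := h2
      _ = M2 / L ^ (k - 1) * P ^ k := by ring
      _ ≤ _ := by linarith

theorem disp {u h : ℝ} (hu : 1 ≤ u) (hh : 0 < h) (N : ℕ) (hN : Real.exp (u + 1) ≤ N)
    (S : Finset ℕ) (a : ℕ → ℝ) {k : ℕ} (hk : 1 ≤ k) {M L : ℝ} (hM0 : 0 ≤ M)
    (hM : ∀ ξ : ℝ, ‖PS u (2 * π * ξ) - PT u (2 * π * ξ)‖ * ‖𝓕 (boxC h) ξ‖ ≤ M) (hL : 0 < L) :
    ∫ x, FS u h N S a x ^ 2 ≤ L * (∫ x, qq u h N x ^ 2) +
      M ^ 2 / L ^ (k - 1) * (∫ x, gk S a k h x ^ 2) := by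
  have hFc := FS_continuous hh u N S a
  have hFs := FS_compact hh u N S a
  have hFL : MemLp (FS u h N S a) 2 := hFc.memLp_of_hasCompactSupport hFs
  have hFint : Integrable (FS u h N S a) := hFc.integrable_of_hasCompactSupport hFs
  have p1 := Pool.Agent.Helper76.NormalHP.plancherel_lintegral
    (fun x => ((FS u h N S a x : ℝ) : ℂ)) hFint.ofReal hFL.ofReal
  have p2 := Pool.Agent.Helper76.NormalHP.plancherel_lintegral
    (fun x => ((qq u h N x : ℝ) : ℂ)) (qqC_integrable u h N) (qqC_memLp u h N)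
  have p3 := Pool.Agent.Helper76.NormalHP.plancherel_lintegral
    (fun x => ((gk S a k h x : ℝ) : ℂ)) (gk_integrable S a k h).ofReal (gk_memLp S a k h).ofReal
  have hc0 : 0 ≤ M ^ 2 / L ^ (k - 1) := by positivity
  have key : ∫⁻ x, ‖((FS u h N S a x : ℝ) : ℂ)‖ₑ ^ 2 ≤
      ENNReal.ofReal L * (∫⁻ x, ‖((qq u h N x : ℝ) : ℂ)‖ₑ ^ 2) +
      ENNReal.ofReal (M ^ 2 / L ^ (k - 1)) * (∫⁻ x, ‖((gk S a k h x : ℝ) : ℂ)‖ₑ ^ 2) := by
    rw [← p1, ← p2, ← p3, ← lintegral_const_mul' _ _ (by simp), ← lintegral_const_mul' _ _ (by simp)]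
    refine (lintegral_mono (g := fun ξ => ENNReal.ofReal L * ‖𝓕 (fun x => ((qq u h N x : ℝ) : ℂ)) ξ‖ₑ ^ 2 +
      ENNReal.ofReal (M ^ 2 / L ^ (k - 1)) * ‖𝓕 (fun x => ((gk S a k h x : ℝ) : ℂ)) ξ‖ₑ ^ 2)
      fun ξ => ?_).trans (le_of_eq (lintegral_add_left' ?_ _))
    · simp only
      rw [four_FS hu hh N hN, four_qq hu N hN, four_gk]
      set A := AA S a ξ
      set B := PS u (2 * π * ξ) - PT u (2 * π * ξ)
      set w := 𝓕 (boxC h) ξ
      have hw : ‖w‖ ≤ 1 := norm_four_box_le_one hh ξ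
      have hBw : ‖B‖ * ‖w‖ ≤ M := hM ξ
      rw [← ofReal_norm, ← ofReal_norm, ← ofReal_norm, ← ENNReal.ofReal_pow (norm_nonneg _),
        ← ENNReal.ofReal_pow (norm_nonneg _), ← ENNReal.ofReal_pow (norm_nonneg _),
        ← ENNReal.ofReal_mul hL.le, ← ENNReal.ofReal_mul hc0,
        ← ENNReal.ofReal_add (by positivity) (by positivity)]
      refine ENNReal.ofReal_le_ofReal ?_
      rw [norm_mul, norm_mul, norm_mul, norm_mul, norm_pow]
      have h1 := elem (P := (‖A‖ * ‖w‖) ^ 2) (Q := (‖B‖ * ‖w‖) ^ 2) (L := L) (M2 := M ^ 2) (k := k) hk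
        (by positivity) (by positivity) (pow_le_pow_left₀ (by positivity) hBw 2) hL
      have h2 : ((‖A‖ * ‖w‖) ^ 2) ^ k ≤ (‖A‖ ^ k * ‖w‖) ^ 2 := by
        rw [← pow_mul, mul_comm 2 k, pow_mul, mul_pow]
        have h3 : ‖w‖ ^ k ≤ ‖w‖ := by
          calc ‖w‖ ^ k ≤ ‖w‖ ^ 1 := pow_le_pow_of_le_one (norm_nonneg _) hw hk
            _ = _ := pow_one _
        gcongr
      calc (‖A‖ * (‖B‖ * ‖w‖ * ‖w‖)) ^ 2 = (‖A‖ * ‖w‖) ^ 2 * (‖B‖ * ‖w‖) ^ 2 := by ring
        _ ≤ _ := h1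
        _ ≤ _ := by
            have := mul_le_mul_of_nonneg_left h2 hc0
            linarith
    · refine AEMeasurable.const_mul ?_ _
      have hcont : Continuous (𝓕 (fun x => ((qq u h N x : ℝ) : ℂ))) :=
        VectorFourier.fourierIntegral_continuous Real.continuous_fourierChar
          (by exact continuous_inner) (qqC_integrable u h N)
      exact (hcont.enorm.measurable.pow_const 2).aemeasurable
  have e1 : ∀ f : ℝ → ℝ, MemLp f 2 → ∫⁻ x, ‖((f x : ℝ) : ℂ)‖ₑ ^ 2 = ENNReal.ofReal (∫ x, f x ^ 2) := by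
    intro f hf
    rw [ofReal_integral_eq_lintegral_ofReal hf.integrable_sq (Eventually.of_forall fun x => by
      simp only [Pi.zero_apply]; positivity)]
    congr 1
    ext x
    rw [← ofReal_norm, ← ENNReal.ofReal_pow (norm_nonneg _), Complex.norm_real, Real.norm_eq_abs,
      sq_abs]
  have hq0 : 0 ≤ ∫ x, qq u h N x ^ 2 := integral_nonneg fun x => by positivity
  have hg0 : 0 ≤ ∫ x, gk S a k h x ^ 2 := integral_nonneg fun x => by positivity
  rw [e1 _ hFL, e1 _ (qq_memLp u h N), e1 _ (gk_memLp S a k h), ← ENNReal.ofReal_mul hL.le,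
    ← ENNReal.ofReal_mul hc0, ← ENNReal.ofReal_add (by positivity) (by positivity)] at key
  exact (ENNReal.ofReal_le_ofReal_iff (by positivity)).1 key

end Pool.Agent.Run7.h129.BH
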