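import Mathlib
import Pool.Agent.N455.OW.PV
import Pool.Agent.Run7.h129.BH.Disp

set_option autoImplicit false

/-!
# Mean square over the dilations: the factors
-/

open Complex Filter Topology Set MeasureTheory Metric
open scoped Real FourierTransform Convolution

namespace Pool.Agent.Run7.h129.BH

open Pool.Agent.W66

/-- the number of pairs of `k`-tuples with nearby sums -/
noncomputable def En (S : Finset ℕ) (a : ℕ → ℝ) (k : ℕ) (h : ℝ) : ℕ :=
  (((Fintype.piFinset (fun _ : Fin k => S)) ×ˢ (Fintype.piFinset (fun _ : Fin k => S))).filter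
    (fun z => |∑ i, a (z.1 i) - ∑ i, a (z.2 i)| < h)).card

lemma box_prod_int {h : ℝ} (hh : 0 < h) (a b : ℝ) :
    Integrable fun y : ℝ => box h (y - a) * box h (y - b) := by
  refine ((box_integrable h).comp_sub_right b).bdd_mul (c := 1 / h)
    ((box_integrable h).comp_sub_right a).aestronglyMeasurable (Eventually.of_forall fun x => ?_)
  rw [Real.norm_of_nonneg (box_nonneg hh _)]
  exact box_le hh _

lemma sq_sum_box {ι : Type*} {h : ℝ} (hh : 0 < h) (s : Finset ι) (c : ι → ℝ) (b : ι → ℝ) :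
    ∫ x, (∑ p ∈ s, c p * box h (x - b p)) ^ 2 = ∑ p ∈ s, ∑ q ∈ s, c p * c q * tri h (b p - b q) := by
  have e : ∀ x, (∑ p ∈ s, c p * box h (x - b p)) ^ 2 = ∑ p ∈ s, ∑ q ∈ s, c p * c q *
      (box h (x - b p) * box h (x - b q)) := by
    intro x
    rw [sq, Finset.sum_mul_sum]
    refine Finset.sum_congr rfl fun l _ => Finset.sum_congr rfl fun m _ => ?_
    ring
  simp only [e]
  rw [integral_finsetSum _ fun l _ => integrable_finsetSum _ fun m _ =>
    (box_prod_int hh (b l) (b m)).const_mul (c l * c m)]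
  refine Finset.sum_congr rfl fun l _ => ?_
  rw [integral_finsetSum _ fun m _ => (box_prod_int hh (b l) (b m)).const_mul (c l * c m)]
  refine Finset.sum_congr rfl fun m _ => ?_
  rw [integral_const_mul, box_conv_gen hh]

lemma gk_sq {h : ℝ} (hh : 0 < h) (S : Finset ℕ) (a : ℕ → ℝ) (k : ℕ) :
    ∫ x, gk S a k h x ^ 2 ≤ En S a k h / h := by
  have e : ∀ x, gk S a k h x = ∑ p ∈ Fintype.piFinset (fun _ : Fin k => S),
      (1 : ℝ) * box h (x - - ∑ i, a (p i)) := by
    intro x
    unfold gk
    refine Finset.sum_congr rfl fun p _ => ?_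
    rw [one_mul, sub_neg_eq_add]
  simp only [e]
  rw [sq_sum_box hh]
  have h1 : ∀ p q : Fin k → ℕ, (1 : ℝ) * 1 * tri h (- ∑ i, a (p i) - - ∑ i, a (q i)) ≤
      if |∑ i, a (p i) - ∑ i, a (q i)| < h then 1 / h else 0 := by
    intro p q
    rw [one_mul, one_mul]
    split_ifs with h2
    · exact tri_le hh _
    · refine (tri_zero_of hh ?_).le
      rw [not_lt] at h2
      refine h2.trans (le_of_eq ?_)
      rw [abs_sub_comm]
      congr 1
      ring
  refine (Finset.sum_le_sum fun p _ => Finset.sum_le_sum fun q _ => h1 p q).trans (le_of_eq ?_)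
  unfold En
  rw [← Finset.sum_product', ← Finset.sum_filter, Finset.sum_const, nsmul_eq_mul]
  ring

lemma log_sep {u h : ℝ} (hhu : h ≤ Real.exp (-(u + 1))) {n m : ℕ} (hn : 0 < n) (hm : 0 < m)
    (hnm : n ≠ m) (hn1 : Real.log n < u + 1) (hm1 : Real.log m < u + 1) :
    h ≤ |Real.log n - Real.log m| := by
  have key : ∀ {n m : ℕ}, 0 < n → n < m → Real.log m < u + 1 → h ≤ Real.log m - Real.log n := by
    intro n m hn hnm hm1
    have hn0 : (0 : ℝ) < n := by exact_mod_cast hn
    have hm0 : (0 : ℝ) < m := by exact_mod_cast hn.trans hnm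
    have h1 : (n : ℝ) + 1 ≤ m := by exact_mod_cast hnm
    have h2 : (m : ℝ) < Real.exp (u + 1) := (Real.log_lt_iff_lt_exp hm0).1 hm1
    have h3 : Real.log n - Real.log m ≤ (n : ℝ) / m - 1 := by
      rw [← Real.log_div hn0.ne' hm0.ne']
      exact Real.log_le_sub_one_of_pos (by positivity)
    have h4 : (n : ℝ) / m - 1 ≤ - (1 / m) := by
      rw [div_sub_one hm0.ne', ← neg_div, div_le_div_iff_of_pos_right hm0]
      linarith
    have h5 : Real.exp (-(u + 1)) ≤ 1 / m := by
      rw [Real.exp_neg, ← one_div]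
      exact one_div_le_one_div_of_le hm0 h2.le
    linarith
  rcases lt_or_gt_of_ne hnm with h1 | h1
  · have := key hn h1 hm1
    rw [abs_sub_comm]
    exact this.trans (le_abs_self _)
  · exact (key hm h1 hn1).trans (le_abs_self _)

lemma pb_sq {u h : ℝ} (hu : 1 ≤ u) (hh : 0 < h) (hhu : h ≤ Real.exp (-(u + 1))) (N : ℕ) :
    ∫ x, pb u h N x ^ 2 ≤ (u + 1) ^ 2 * (u + 2) * Real.exp (1 - u) / h := by
  set c : ℕ → ℝ := fun n => ArithmeticFunction.vonMangoldt n / n * hat (u - Real.log n) with hc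
  have hc0 : ∀ n, 0 ≤ c n := fun n => mul_nonneg (div_nonneg ArithmeticFunction.vonMangoldt_nonneg
    (Nat.cast_nonneg _)) (hat_nonneg _)
  have h0 : ∫ x, pb u h N x ^ 2 = ∑ n ∈ Finset.Ioc 0 N, ∑ m ∈ Finset.Ioc 0 N,
      c n * c m * tri h (Real.log n - Real.log m) := sq_sum_box hh (Finset.Ioc 0 N) c
        (fun n : ℕ => Real.log n)
  rw [h0]
  -- the diagonal
  have h1 : ∀ n ∈ Finset.Ioc 0 N, ∑ m ∈ Finset.Ioc 0 N, c n * c m * tri h (Real.log n - Real.log m) =
      c n * c n * (1 / h) := by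
    intro n hn
    rw [Finset.mem_Ioc] at hn
    rw [Finset.sum_eq_single_of_mem n (Finset.mem_Ioc.2 hn)]
    · rw [sub_self]
      congr 1
      unfold tri hat
      simp
    · intro m hm hmn
      rw [Finset.mem_Ioc] at hm
      by_cases h2 : Real.log n < u + 1 ∧ Real.log m < u + 1
      · rw [tri_zero_of hh (log_sep hhu hn.1 hm.1 (Ne.symm hmn) h2.1 h2.2), mul_zero]
      · have h3 : c n = 0 ∨ c m = 0 := by
          rcases not_and_or.1 h2 with h3 | h3
          · left
            rw [hc]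
            simp only
            rw [hat_zero_of, mul_zero]
            rw [abs_of_nonpos (by linarith)]
            linarith
          · right
            rw [hc]
            simp only
            rw [hat_zero_of, mul_zero]
            rw [abs_of_nonpos (by linarith)]
            linarith
        rcases h3 with h3 | h3 <;> rw [h3] <;> simp
  rw [Finset.sum_congr rfl h1, ← Finset.sum_mul]
  have h2 : ∀ n ∈ Finset.Ioc 0 N, c n * c n ≤ (u + 1) * Real.exp (1 - u) *
      (if Real.log n < u + 1 then ArithmeticFunction.vonMangoldt n / n else 0) := by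
    intro n hn
    rw [Finset.mem_Ioc] at hn
    have hn0 : (0 : ℝ) < n := by exact_mod_cast hn.1
    have hL0 : 0 ≤ ArithmeticFunction.vonMangoldt n / n := div_nonneg
      ArithmeticFunction.vonMangoldt_nonneg (Nat.cast_nonneg _)
    have hcle : c n ≤ ArithmeticFunction.vonMangoldt n / n := by
      rw [hc]
      exact mul_le_of_le_one_right hL0 (hat_le_one _)
    by_cases h3 : |u - Real.log n| < 1
    · rw [abs_lt] at h3
      have h4 : Real.log n < u + 1 := by linarith
      rw [if_pos h4]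
      have h5 : c n ≤ (u + 1) * Real.exp (1 - u) := by
        refine hcle.trans ?_
        rw [div_le_iff₀ hn0]
        have h6 : Real.exp (u - 1) ≤ n := by
          rw [← Real.le_log_iff_exp_le hn0]
          linarith
        have h7 : Real.exp (1 - u) * Real.exp (u - 1) = 1 := by
          rw [← Real.exp_add]; simp
        have h8 : ArithmeticFunction.vonMangoldt n ≤ u + 1 :=
          ArithmeticFunction.vonMangoldt_le_log.trans h4.le
        calc ArithmeticFunction.vonMangoldt n ≤ (u + 1) * 1 := by linarith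
          _ = (u + 1) * (Real.exp (1 - u) * Real.exp (u - 1)) := by rw [h7]
          _ ≤ (u + 1) * (Real.exp (1 - u) * n) := by gcongr
          _ = _ := by ring
      exact mul_le_mul h5 hcle (hc0 n) (by positivity)
    · have h4 : c n = 0 := by
        rw [hc]
        simp only
        rw [hat_zero_of (not_lt.1 h3), mul_zero]
      rw [h4, mul_zero]
      split_ifs
      · positivity
      · simp
  have h3 : ∑ n ∈ Finset.Ioc 0 N, c n * c n ≤ (u + 1) * Real.exp (1 - u) * ((u + 1) * (1 + (u + 1))) := by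
    refine (Finset.sum_le_sum h2).trans ?_
    rw [← Finset.mul_sum, ← Finset.sum_filter]
    exact mul_le_mul_of_nonneg_left (La_sum_le N (by linarith)) (by positivity)
  calc (∑ n ∈ Finset.Ioc 0 N, c n * c n) * (1 / h) ≤
      (u + 1) * Real.exp (1 - u) * ((u + 1) * (1 + (u + 1))) * (1 / h) :=
        mul_le_mul_of_nonneg_right h3 (by positivity)
    _ = _ := by field_simp; ring

lemma hb_nonneg {h : ℝ} (hh : 0 < h) (u x : ℝ) : 0 ≤ hb u h x :=
  integral_nonneg fun v => mul_nonneg (hat_nonneg _) (box_nonneg hh _)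

lemma hb_le_one {h : ℝ} (hh : 0 < h) (u x : ℝ) : hb u h x ≤ 1 := by
  have h1 : ∫ v : ℝ, box h (x - v) = 1 := by
    rw [integral_sub_left_eq_self (fun v => box h v) volume x]
    exact integral_box hh
  rw [← h1]
  unfold hb
  refine integral_mono ?_ ((box_integrable h).comp_sub_left x) fun v => ?_
  · refine ((box_integrable h).comp_sub_left x).bdd_mul (c := 1)
      (hatu_continuous u).aestronglyMeasurable (Eventually.of_forall fun v => ?_)
    rw [Real.norm_of_nonneg (hat_nonneg _)]
    exact hat_le_one _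
  · exact mul_le_of_le_one_left (box_nonneg hh _) (hat_le_one _)

lemma integral_hb {h : ℝ} (hh : 0 < h) (u : ℝ) : ∫ x, hb u h x = 1 := by
  have h1 := integral_convolution (L := ContinuousLinearMap.mul ℝ ℝ) (hatu_integrable u)
    (box_integrable h)
  rw [← hb_eq] at h1
  rw [h1, integral_hat, integral_box hh]
  simp

lemma hb_sq {h : ℝ} (hh : 0 < h) (u : ℝ) : ∫ x, hb u h x ^ 2 ≤ 1 := by
  rw [← integral_hb hh u]
  refine integral_mono ?_ (hb_integrable u h) fun x => ?_
  · exact (hb_memLp u h).integrable_sq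
  · have h1 := hb_nonneg hh u x
    have h2 := hb_le_one hh u x
    simp only
    nlinarith

lemma qq_sq {u h : ℝ} (hu : 1 ≤ u) (hh : 0 < h) (hhu : h ≤ Real.exp (-(u + 1))) (N : ℕ) :
    ∫ x, qq u h N x ^ 2 ≤ 2 * ((u + 1) ^ 2 * (u + 2) * Real.exp (1 - u) / h) + 2 := by
  have h1 : ∫ x, qq u h N x ^ 2 ≤ ∫ x, (2 * pb u h N x ^ 2 + 2 * hb u h x ^ 2) := by
    refine integral_mono (qq_memLp u h N).integrable_sq
      (((pb_memLp u h N).integrable_sq.const_mul 2).add ((hb_memLp u h).integrable_sq.const_mul 2))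
      fun x => ?_
    rw [qq_eq]
    simp only
    nlinarith [sq_nonneg (pb u h N x + hb u h x)]
  rw [integral_add ((pb_memLp u h N).integrable_sq.const_mul 2)
    ((hb_memLp u h).integrable_sq.const_mul 2), integral_const_mul, integral_const_mul] at h1
  have h2 := pb_sq hu hh hhu N
  have h3 := hb_sq hh u
  linarith

/-- the uniform bound -/
lemma M_le (D : ℕ) : ∃ C : ℝ, 0 < C ∧ ∀ u h : ℝ, 1 ≤ u → Real.exp (-(2 * u)) ≤ h → ∀ ξ : ℝ,
    ‖PS u (2 * π * ξ) - PT u (2 * π * ξ)‖ * ‖𝓕 (boxC h) ξ‖ ≤ C / u ^ D := by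
  obtain ⟨C, hC⟩ := Pool.Agent.N455.OW.pv 3 D
  refine ⟨|C| + 7 * (D + 2).factorial, by positivity, fun u h hu hhu ξ => ?_⟩
  have hu0 : 0 < u := by linarith
  have hh : 0 < h := lt_of_lt_of_le (Real.exp_pos _) hhu
  have huD : 0 < u ^ D := by positivity
  rcases le_or_gt |ξ| (Real.exp ((3 : ℕ) * u)) with h1 | h1
  · have h2 := hC u ξ hu h1
    have h3 := norm_four_box_le_one hh ξ
    calc ‖PS u (2 * π * ξ) - PT u (2 * π * ξ)‖ * ‖𝓕 (boxC h) ξ‖ ≤ (C / u ^ D) * 1 :=
          mul_le_mul h2 h3 (norm_nonneg _) ((norm_nonneg _).trans h2)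
      _ ≤ _ := by
          rw [mul_one]
          refine div_le_div_of_nonneg_right ?_ huD.le
          have := le_abs_self C
          have : (0 : ℝ) ≤ 7 * (D + 2).factorial := by positivity
          linarith
  · have hξ0 : ξ ≠ 0 := by
      intro h0
      rw [h0, abs_zero] at h1
      exact absurd h1 (not_lt.2 (Real.exp_pos _).le)
    have h2 := norm_four_box_le hh hξ0
    have h3 := PE_triv hu ξ
    have h4 : 1 / (h * |ξ|) ≤ Real.exp (-u) := by
      rw [div_le_iff₀ (by positivity)]
      calc (1 : ℝ) = Real.exp (-u) * (Real.exp (-(2 * u)) * Real.exp ((3 : ℕ) * u)) := by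
            rw [← Real.exp_add, ← Real.exp_add]
            push_cast
            rw [show -u + (-(2 * u) + 3 * u) = 0 by ring, Real.exp_zero]
        _ ≤ _ := by gcongr
    have h5 : (u + 1) * (u + 2) + 1 ≤ 7 * u ^ 2 := by nlinarith
    have h6 : u ^ (D + 2) ≤ (D + 2).factorial * Real.exp u := by
      have := Real.pow_div_factorial_le_exp u hu0.le (D + 2)
      rw [div_le_iff₀ (by positivity)] at this
      linarith
    calc ‖PS u (2 * π * ξ) - PT u (2 * π * ξ)‖ * ‖𝓕 (boxC h) ξ‖ ≤ (7 * u ^ 2) * Real.exp (-u) :=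
          mul_le_mul (h3.trans h5) (h2.trans h4) (norm_nonneg _) (by positivity)
      _ ≤ (7 * (D + 2).factorial) / u ^ D := by
          rw [le_div_iff₀ huD]
          calc 7 * u ^ 2 * Real.exp (-u) * u ^ D = 7 * u ^ (D + 2) * Real.exp (-u) := by ring
            _ ≤ 7 * ((D + 2).factorial * Real.exp u) * Real.exp (-u) := by gcongr
            _ = 7 * (D + 2).factorial := by
                rw [mul_assoc, mul_assoc, ← Real.exp_add, add_neg_cancel, Real.exp_zero, mul_one]
      _ ≤ _ := by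
          refine div_le_div_of_nonneg_right ?_ huD.le
          have := abs_nonneg C
          linarith

/-- the mean square -/
theorem mean_sq (D : ℕ) : ∃ C : ℝ, 0 < C ∧ ∀ u h : ℝ, 1 ≤ u → Real.exp (-(2 * u)) ≤ h →
    h ≤ Real.exp (-(u + 1)) → ∀ (N : ℕ), Real.exp (u + 1) ≤ N → ∀ (S : Finset ℕ) (a : ℕ → ℝ)
    (k : ℕ), 1 ≤ k → ∀ L : ℝ, 0 < L →
    ∫ x, FS u h N S a x ^ 2 ≤ L * (2 * ((u + 1) ^ 2 * (u + 2) * Real.exp (1 - u) / h) + 2) +
      C / u ^ D / L ^ (k - 1) * (En S a k h / h) := by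
  obtain ⟨C, hC, hM⟩ := M_le D
  refine ⟨C ^ 2, by positivity, fun u h hu hh1 hh2 N hN S a k hk L hL => ?_⟩
  have hh : 0 < h := lt_of_lt_of_le (Real.exp_pos _) hh1
  have hu0 : 0 < u := by linarith
  have h1 := disp hu hh N hN S a hk (M := C / u ^ D) (by positivity) (hM u h hu hh1) hL
  refine h1.trans (add_le_add (mul_le_mul_of_nonneg_left (qq_sq hu hh hh2 N) hL.le) ?_)
  have h2 : (C / u ^ D) ^ 2 / L ^ (k - 1) ≤ C ^ 2 / u ^ D / L ^ (k - 1) := by
    refine div_le_div_of_nonneg_right ?_ (by positivity)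
    rw [div_pow]
    refine div_le_div_of_nonneg_left (by positivity) (by positivity) ?_
    have h3 : 1 ≤ u ^ D := one_le_pow₀ hu
    nlinarith
  exact mul_le_mul h2 (gk_sq hh S a k) (integral_nonneg fun x => by positivity) (by positivity)

end Pool.Agent.Run7.h129.BH
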