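import Mathlib
import Pool.Agent.Run7.h129.BH.Bnd

set_option autoImplicit false

/-!
# The energy of regular sequences
-/

open Filter Topology Set

namespace Pool.Agent.Run7.h129.BH

open Pool.Agent.W66

lemma tau_pow_sum (j N : ℕ) (hN : 1 ≤ N) :
    ∑ l ∈ Finset.Ioc 0 N, (l.divisors.card : ℝ) ^ j / l ≤ (1 + Real.log N) ^ (2 ^ j) := by
  induction j with
  | zero => simpa using harm_le N hN
  | succ j ih =>
    have h1 : ∀ l ∈ Finset.Ioc 0 N, (l.divisors.card : ℝ) ^ (j + 1) / l ≤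
        ∑ p ∈ l.divisorsAntidiagonal, (p.1.divisors.card : ℝ) ^ j / (p.1 : ℝ) *
          ((p.2.divisors.card : ℝ) ^ j / (p.2 : ℝ)) := by
      intro l hl
      have h2 : ∀ p ∈ l.divisorsAntidiagonal, (l.divisors.card : ℝ) ^ j / l ≤
          (p.1.divisors.card : ℝ) ^ j / (p.1 : ℝ) * ((p.2.divisors.card : ℝ) ^ j / (p.2 : ℝ)) := by
        intro p hp
        rw [Nat.mem_divisorsAntidiagonal] at hp
        rw [div_mul_div_comm, ← hp.1, ← mul_pow]
        push_cast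
        apply div_le_div_of_nonneg_right _ (by positivity)
        exact pow_le_pow_left₀ (by positivity) (tau_mul_le _ _) j
      refine le_trans (le_of_eq ?_) (Finset.sum_le_sum h2)
      rw [Finset.sum_const, nsmul_eq_mul, ← Nat.map_div_right_divisors, Finset.card_map]
      ring
    refine (Finset.sum_le_sum h1).trans ?_
    refine (hyper_le (fun a b => (a.divisors.card : ℝ) ^ j / (a : ℝ) *
      ((b.divisors.card : ℝ) ^ j / (b : ℝ))) N (fun a b => by positivity)).trans ?_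
    have h2 : ∑ m ∈ Finset.Ioc 0 N, ∑ l ∈ Finset.Ioc 0 N, (m.divisors.card : ℝ) ^ j / (m : ℝ) *
        ((l.divisors.card : ℝ) ^ j / (l : ℝ)) =
        (∑ d ∈ Finset.Ioc 0 N, (d.divisors.card : ℝ) ^ j / d) ^ 2 := by
      rw [sq, Finset.sum_mul_sum]
    rw [h2]
    have h4 : 0 ≤ ∑ d ∈ Finset.Ioc 0 N, (d.divisors.card : ℝ) ^ j / d :=
      Finset.sum_nonneg fun d _ => by positivity
    calc _ ≤ ((1 + Real.log N) ^ (2 ^ j)) ^ 2 := by gcongr
      _ = _ := by rw [← pow_mul]; congr 1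

/-- tuples with given product -/
lemma tuples_le {S : Finset ℕ} {ψ : ℕ → ℕ} (hψ : Set.InjOn ψ S) (k : ℕ) {n : ℕ} (hn : n ≠ 0) :
    ((Fintype.piFinset (fun _ : Fin k => S)).filter (fun p => ∏ i, ψ (p i) = n)).card ≤
      n.divisors.card ^ k := by
  have h1 : (Fintype.piFinset (fun _ : Fin k => n.divisors)).card = n.divisors.card ^ k := by
    rw [Fintype.card_piFinset]
    simp
  rw [← h1]
  refine Finset.card_le_card_of_injOn (fun p i => ψ (p i)) ?_ ?_
  · intro p hp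
    rw [Finset.mem_coe, Finset.mem_filter] at hp
    rw [Finset.mem_coe, Fintype.mem_piFinset]
    intro i
    rw [Nat.mem_divisors]
    refine ⟨?_, hn⟩
    rw [← hp.2]
    exact Finset.dvd_prod_of_mem (fun i => ψ (p i)) (Finset.mem_univ i)
  · intro p hp q hq hpq
    rw [Finset.mem_coe, Finset.mem_filter, Fintype.mem_piFinset] at hp hq
    funext i
    exact hψ (hp.1 i) (hq.1 i) (congrFun hpq i)

/-- pairs of tuples with nearby products -/
lemma pairs_le {S : Finset ℕ} {ψ : ℕ → ℕ} (hψ : Set.InjOn ψ S) (k : ℕ) (Z R : ℕ) (hZ : 1 ≤ Z)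
    (h0 : ∀ m ∈ S, 0 < ψ m)
    (hprod : ∀ p ∈ Fintype.piFinset (fun _ : Fin k => S), ∏ i, ψ (p i) ≤ Z) :
    ((((Fintype.piFinset (fun _ : Fin k => S)) ×ˢ (Fintype.piFinset (fun _ : Fin k => S))).filter
      (fun z => ∏ i, ψ (z.1 i) ≤ ∏ i, ψ (z.2 i) + R ∧ ∏ i, ψ (z.2 i) ≤ ∏ i, ψ (z.1 i) + R)).card : ℝ) ≤
      (2 * R + 1) * Z * (1 + Real.log Z) ^ (2 ^ (2 * k)) := by
  classical
  set P := Fintype.piFinset (fun _ : Fin k => S) with hP
  set F : (Fin k → ℕ) → ℕ := fun p => ∏ i, ψ (p i) with hF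
  have hF0 : ∀ p ∈ P, F p ∈ Finset.Ioc 0 Z := by
    intro p hp
    rw [Finset.mem_Ioc]
    refine ⟨Finset.prod_pos fun i _ => h0 _ (Fintype.mem_piFinset.1 hp i), hprod p hp⟩
  set G := ((Finset.Ioc 0 Z) ×ˢ (Finset.Ioc 0 Z)).filter
    (fun z : ℕ × ℕ => z.1 ≤ z.2 + R ∧ z.2 ≤ z.1 + R) with hG
  set r : ℕ → ℕ := fun n => (P.filter (fun p => F p = n)).card with hr
  have hcard : ((P ×ˢ P).filter (fun z => F z.1 ≤ F z.2 + R ∧ F z.2 ≤ F z.1 + R)).card ≤
      ∑ z ∈ G, r z.1 * r z.2 := by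
    rw [Finset.card_eq_sum_card_fiberwise (f := fun z : (Fin k → ℕ) × (Fin k → ℕ) => (F z.1, F z.2))
      (t := G)]
    · refine Finset.sum_le_sum fun z _ => ?_
      rw [hr]
      simp only
      rw [← Finset.card_product]
      refine Finset.card_le_card fun w hw => ?_
      rw [Finset.mem_filter, Finset.mem_filter, Finset.mem_product] at hw
      rw [Finset.mem_product, Finset.mem_filter, Finset.mem_filter]
      have h1 := hw.2
      rw [Prod.ext_iff] at h1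
      exact ⟨⟨hw.1.1.1, h1.1⟩, hw.1.1.2, h1.2⟩
    · intro w hw
      rw [Finset.mem_coe, Finset.mem_filter, Finset.mem_product] at hw
      rw [Finset.mem_coe, hG, Finset.mem_filter, Finset.mem_product]
      exact ⟨⟨hF0 _ hw.1.1, hF0 _ hw.1.2⟩, hw.2⟩
  have hwin : ∀ n : ℕ, ((Finset.Ioc 0 Z).filter (fun m => n ≤ m + R ∧ m ≤ n + R)).card ≤ 2 * R + 1 := by
    intro n
    calc _ ≤ (Finset.Icc (n - R) (n + R)).card := by
          refine Finset.card_le_card fun m hm => ?_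
          rw [Finset.mem_filter] at hm
          rw [Finset.mem_Icc]
          omega
      _ ≤ 2 * R + 1 := by
          rw [Nat.card_Icc]
          omega
  have hsum1 : ∑ z ∈ G, (r z.1 : ℝ) ^ 2 ≤ (2 * R + 1) * ∑ n ∈ Finset.Ioc 0 Z, (r n : ℝ) ^ 2 := by
    rw [hG, Finset.sum_filter, Finset.sum_product, Finset.mul_sum]
    refine Finset.sum_le_sum fun n _ => ?_
    rw [← Finset.sum_filter]
    simp only
    rw [Finset.sum_const, nsmul_eq_mul]
    refine mul_le_mul_of_nonneg_right ?_ (by positivity)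
    exact_mod_cast hwin n
  have hsum2 : ∑ z ∈ G, (r z.2 : ℝ) ^ 2 ≤ (2 * R + 1) * ∑ n ∈ Finset.Ioc 0 Z, (r n : ℝ) ^ 2 := by
    rw [hG, Finset.sum_filter, Finset.sum_product_right, Finset.mul_sum]
    refine Finset.sum_le_sum fun n _ => ?_
    rw [← Finset.sum_filter]
    simp only
    rw [Finset.sum_const, nsmul_eq_mul]
    refine mul_le_mul_of_nonneg_right ?_ (by positivity)
    have h1 := hwin n
    have h2 : (Finset.Ioc 0 Z).filter (fun m => m ≤ n + R ∧ n ≤ m + R) =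
        (Finset.Ioc 0 Z).filter (fun m => n ≤ m + R ∧ m ≤ n + R) :=
      Finset.filter_congr fun m _ => and_comm
    rw [h2]
    exact_mod_cast h1
  have hr2 : ∑ n ∈ Finset.Ioc 0 Z, (r n : ℝ) ^ 2 ≤ Z * (1 + Real.log Z) ^ (2 ^ (2 * k)) := by
    calc ∑ n ∈ Finset.Ioc 0 Z, (r n : ℝ) ^ 2 ≤ ∑ n ∈ Finset.Ioc 0 Z,
          Z * ((n.divisors.card : ℝ) ^ (2 * k) / n) := by
          refine Finset.sum_le_sum fun n hn => ?_
          rw [Finset.mem_Ioc] at hn
          have h1 : (r n : ℝ) ≤ (n.divisors.card : ℝ) ^ k := by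
            exact_mod_cast tuples_le hψ k (by omega : n ≠ 0)
          have h2 : (r n : ℝ) ^ 2 ≤ (n.divisors.card : ℝ) ^ (2 * k) := by
            calc (r n : ℝ) ^ 2 ≤ ((n.divisors.card : ℝ) ^ k) ^ 2 := by gcongr
              _ = _ := by rw [← pow_mul, mul_comm]
          have hn0 : (0 : ℝ) < n := by exact_mod_cast hn.1
          have h3 : (1 : ℝ) ≤ Z / n := by
            rw [le_div_iff₀ hn0, one_mul]
            exact_mod_cast hn.2
          calc (r n : ℝ) ^ 2 ≤ (n.divisors.card : ℝ) ^ (2 * k) * 1 := by linarith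
            _ ≤ (n.divisors.card : ℝ) ^ (2 * k) * (Z / n) := by gcongr
            _ = _ := by ring
      _ = Z * ∑ n ∈ Finset.Ioc 0 Z, (n.divisors.card : ℝ) ^ (2 * k) / n := by rw [Finset.mul_sum]
      _ ≤ _ := by
          have := tau_pow_sum (2 * k) Z hZ
          gcongr
  calc ((((P ×ˢ P).filter (fun z => F z.1 ≤ F z.2 + R ∧ F z.2 ≤ F z.1 + R)).card : ℕ) : ℝ) ≤
      ((∑ z ∈ G, r z.1 * r z.2 : ℕ) : ℝ) := by exact_mod_cast hcard
    _ = ∑ z ∈ G, (r z.1 : ℝ) * r z.2 := by push_cast; rfl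
    _ ≤ ∑ z ∈ G, ((r z.1 : ℝ) ^ 2 + (r z.2 : ℝ) ^ 2) / 2 := by
        refine Finset.sum_le_sum fun z _ => ?_
        nlinarith [sq_nonneg ((r z.1 : ℝ) - r z.2)]
    _ = (∑ z ∈ G, (r z.1 : ℝ) ^ 2 + ∑ z ∈ G, (r z.2 : ℝ) ^ 2) / 2 := by
        rw [← Finset.sum_div, Finset.sum_add_distrib]
    _ ≤ (2 * R + 1) * ∑ n ∈ Finset.Ioc 0 Z, (r n : ℝ) ^ 2 := by linarith
    _ ≤ (2 * R + 1) * (Z * (1 + Real.log Z) ^ (2 ^ (2 * k))) := by gcongr
    _ = _ := by ring

/-- the blocks -/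
noncomputable def blk (η : ℝ) (i : ℕ) : Finset ℕ :=
  Finset.Ioc ⌊Real.exp (i * η)⌋₊ ⌊Real.exp ((i + 1) * η)⌋₊

lemma mem_blk {η : ℝ} {i m : ℕ} : m ∈ blk η i ↔ Real.exp (i * η) < m ∧ (m : ℝ) ≤ Real.exp ((i + 1) * η) := by
  unfold blk
  rw [Finset.mem_Ioc, Nat.floor_lt (Real.exp_pos _).le, Nat.le_floor_iff (Real.exp_pos _).le]

/-- regular sequences of logarithms, of exponent `κ` -/
def Reg (a : ℕ → ℝ) (κ c : ℝ) : Prop := 0 < κ ∧ ∃ (A : ℕ) (B : ℤ) (C1 : ℝ), 0 < A ∧ 0 ≤ C1 ∧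
  ∀ᶠ m : ℕ in atTop, |a m - κ * Real.log ((A : ℝ) * m + B) - (c - κ * Real.log A)| ≤
    C1 * Real.exp (-(κ * Real.log m))

lemma En_le {a : ℕ → ℝ} {κ c : ℝ} (hreg : Reg a κ c) {η : ℝ} (hη : 0 < η) (hη1 : η ≤ 1) (k : ℕ)
    (hk : κ ≤ k) (H : ℝ) (hH : 0 ≤ H) : ∃ C : ℝ, 0 < C ∧ ∃ (E i0 : ℕ), ∀ i : ℕ, i0 ≤ i → ∀ S : Finset ℕ,
      S ⊆ blk η i → ∀ h : ℝ, h ≤ H * Real.exp (-(κ * (i * η))) →
      (En S a k h : ℝ) ≤ C * Real.exp ((2 * k - κ) * (i * η)) * ((i : ℝ) + 1) ^ E := by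
  obtain ⟨hκ, A, B, C1, hA, hC1, hev⟩ := hreg
  obtain ⟨m0, hm0⟩ := eventually_atTop.1 hev
  have hAR : (1 : ℝ) ≤ A := by exact_mod_cast hA
  -- the constants
  set A' : ℝ := 3 * A + |(B : ℝ)| + 1 with hA'
  have hA'1 : 1 ≤ A' := by
    have := abs_nonneg (B : ℝ)
    rw [hA']; linarith
  set δ0 : ℝ := (H + 2 * k * C1) / κ with hδ0
  have hδ00 : 0 ≤ δ0 := by positivity
  obtain ⟨i0, hi0⟩ := exists_nat_ge ((Real.log (m0 + |(B : ℝ)| + 2)) / η)
  have hB0 : 0 ≤ |(B : ℝ)| := abs_nonneg _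
  have hX0 : ∀ i : ℕ, i0 ≤ i → m0 + |(B : ℝ)| + 2 ≤ Real.exp (i * η) := by
    intro i hi
    rw [← Real.log_le_iff_le_exp (by positivity)]
    have h1 : (i0 : ℝ) ≤ i := by exact_mod_cast hi
    rw [div_le_iff₀ hη] at hi0
    nlinarith
  set ψ : ℕ → ℕ := fun m => ((A : ℤ) * m + B).toNat with hψd
  have hlogA' : 0 ≤ Real.log A' := Real.log_nonneg hA'1
  set K2 : ℝ := 1 + Real.log 2 + k * Real.log A' + k with hK2
  have hlog2 : 0 ≤ Real.log 2 := Real.log_nonneg (by norm_num : (1 : ℝ) ≤ 2)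
  have hkA : 0 ≤ (k : ℝ) * Real.log A' := by positivity
  have hk0 : (0 : ℝ) ≤ k := by positivity
  have hK21 : 1 ≤ K2 := by
    rw [hK2]; linarith
  refine ⟨(2 * A' ^ k * δ0 + 3) * (2 * A' ^ k) * K2 ^ (2 ^ (2 * k)), by positivity, 2 ^ (2 * k),
    max i0 m0, fun i hi S hS h hh => ?_⟩
  have hi0' : i0 ≤ i := (le_max_left _ _).trans hi
  have hXm := hX0 i hi0'
  set X : ℝ := Real.exp (i * η) with hX
  have hX1 : 1 ≤ X := by
    have : (0 : ℝ) ≤ m0 := by positivity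
    linarith
  have hXpos : 0 < X := by linarith
  have hlogX : Real.log X = i * η := by rw [hX, Real.log_exp]
  -- elements of the block
  have hmem : ∀ m ∈ S, X < m ∧ (m : ℝ) ≤ 3 * X := by
    intro m hm
    have h1 := mem_blk.1 (hS hm)
    refine ⟨h1.1, h1.2.trans ?_⟩
    rw [add_mul, one_mul, Real.exp_add, mul_comm]
    have h2 : Real.exp η ≤ 3 := by
      have := Real.exp_le_exp.2 hη1
      have := Real.exp_one_lt_d9
      linarith
    gcongr
  have hψ : ∀ m ∈ S, ((ψ m : ℕ) : ℝ) = (A : ℝ) * m + B ∧ 0 < ψ m ∧ ((ψ m : ℕ) : ℝ) ≤ A' * X := by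
    intro m hm
    obtain ⟨h1, h2⟩ := hmem m hm
    have h3 : (0 : ℝ) < (A : ℝ) * m + B := by
      have h4 : -|(B : ℝ)| ≤ B := neg_abs_le _
      have h5 : (m : ℝ) ≤ A * m := by nlinarith
      have : (0 : ℝ) ≤ m0 := by positivity
      linarith
    have h4 : (0 : ℤ) < (A : ℤ) * m + B := by exact_mod_cast h3
    have h5 : ((ψ m : ℕ) : ℝ) = (A : ℝ) * m + B := by
      have h6 : ((ψ m : ℕ) : ℤ) = (A : ℤ) * m + B := Int.toNat_of_nonneg h4.le
      exact_mod_cast h6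
    refine ⟨h5, ?_, ?_⟩
    · have : (0 : ℝ) < (ψ m : ℕ) := by rw [h5]; exact h3
      exact_mod_cast this
    · rw [h5, hA']
      have h6 : (B : ℝ) ≤ |(B : ℝ)| := le_abs_self _
      have h7 : |(B : ℝ)| ≤ |(B : ℝ)| * X := by nlinarith
      have h8 : (A : ℝ) * m ≤ A * (3 * X) := by gcongr
      nlinarith
  have hψinj : Set.InjOn ψ S := by
    intro m hm m' hm' he
    have h1 := (hψ m hm).1
    have h2 := (hψ m' hm').1
    rw [he] at h1
    rw [h1] at h2
    have h3 : (A : ℝ) * m = A * m' := by linarith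
    have h4 : (m : ℝ) = m' := mul_left_cancel₀ (by linarith : (A : ℝ) ≠ 0) h3
    exact_mod_cast h4
  set Z' : ℝ := (A' * X) ^ k with hZ'
  have hZ'1 : 1 ≤ Z' := one_le_pow₀ (by nlinarith)
  set Z : ℕ := ⌈Z'⌉₊ with hZ
  have hZle : Z' ≤ Z := Nat.le_ceil _
  have hZ1 : 1 ≤ Z := by
    have : (1 : ℝ) ≤ Z := hZ'1.trans hZle
    exact_mod_cast this
  have hZ2 : (Z : ℝ) ≤ 2 * Z' := by
    have := (Nat.ceil_lt_add_one (by linarith : 0 ≤ Z')).le
    rw [← hZ] at this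
    linarith
  set δ : ℝ := δ0 * Real.exp (-(κ * (i * η))) with hδ
  have hδ0' : 0 ≤ δ := by positivity
  set R : ℕ := ⌈Z' * δ⌉₊ with hR
  have hR1 : Z' * δ ≤ R := Nat.le_ceil _
  have hR2 : (R : ℝ) ≤ Z' * δ + 1 := (Nat.ceil_lt_add_one (by positivity)).le
  have hprodR : ∀ p ∈ Fintype.piFinset (fun _ : Fin k => S), ((∏ i, ψ (p i) : ℕ) : ℝ) ≤ Z' := by
    intro p hp
    push_cast
    calc ∏ i, ((ψ (p i) : ℕ) : ℝ) ≤ ∏ _i : Fin k, A' * X :=
          Finset.prod_le_prod (fun i _ => by positivity) fun i _ =>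
            (hψ _ (Fintype.mem_piFinset.1 hp i)).2.2
      _ = Z' := by rw [Finset.prod_const, Finset.card_univ, Fintype.card_fin]
  have hpos : ∀ p ∈ Fintype.piFinset (fun _ : Fin k => S), 0 < (∏ i, ψ (p i) : ℕ) := fun p hp =>
    Finset.prod_pos fun i _ => (hψ _ (Fintype.mem_piFinset.1 hp i)).2.1
  -- the logarithms
  have hloga : ∀ p ∈ Fintype.piFinset (fun _ : Fin k => S),
      |∑ i, a (p i) - (κ * Real.log ((∏ i, ψ (p i) : ℕ) : ℝ) + k * (c - κ * Real.log A))| ≤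
        k * (C1 * Real.exp (-(κ * (i * η)))) := by
    intro p hp
    have h1 : Real.log ((∏ i, ψ (p i) : ℕ) : ℝ) = ∑ i, Real.log ((A : ℝ) * (p i) + B) := by
      push_cast
      rw [Real.log_prod]
      · refine Finset.sum_congr rfl fun i _ => ?_
        rw [(hψ _ (Fintype.mem_piFinset.1 hp i)).1]
      · intro i _
        have := (hψ _ (Fintype.mem_piFinset.1 hp i)).2.1
        positivity
    rw [h1]
    have h2 : ∑ i, a (p i) - (κ * ∑ i, Real.log ((A : ℝ) * (p i) + B) + k * (c - κ * Real.log A)) =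
        ∑ i : Fin k, (a (p i) - κ * Real.log ((A : ℝ) * (p i) + B) - (c - κ * Real.log A)) := by
      rw [Finset.sum_sub_distrib, Finset.sum_sub_distrib, Finset.mul_sum, Finset.sum_const,
        Finset.card_univ, Fintype.card_fin, nsmul_eq_mul]
      ring
    rw [h2]
    refine (Finset.abs_sum_le_sum_abs _ _).trans ?_
    calc ∑ i : Fin k, |a (p i) - κ * Real.log ((A : ℝ) * (p i) + B) - (c - κ * Real.log A)| ≤
          ∑ _j : Fin k, C1 * Real.exp (-(κ * (i * η))) := by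
          refine Finset.sum_le_sum fun j _ => ?_
          have hj := hmem _ (Fintype.mem_piFinset.1 hp j)
          have h3 : m0 ≤ p j := by
            have h4 : (m0 : ℝ) ≤ p j := by
              have := hj.1
              linarith
            exact_mod_cast h4
          refine (hm0 _ h3).trans ?_
          have h4 : (i * η : ℝ) ≤ Real.log (p j) := by
            rw [← hlogX]
            exact Real.log_le_log hXpos hj.1.le
          have h5 : κ * (i * η) ≤ κ * Real.log (p j) := mul_le_mul_of_nonneg_left h4 hκ.le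
          gcongr
      _ = _ := by
          rw [Finset.sum_const, Finset.card_univ, Fintype.card_fin, nsmul_eq_mul]
  have hclose : ∀ p ∈ Fintype.piFinset (fun _ : Fin k => S),
      ∀ q ∈ Fintype.piFinset (fun _ : Fin k => S), |∑ i, a (p i) - ∑ i, a (q i)| < h →
      (∏ i, ψ (p i) : ℕ) ≤ (∏ i, ψ (q i) : ℕ) + R := by
    intro p hp q hq hpq
    set P1 : ℝ := ((∏ i, ψ (p i) : ℕ) : ℝ) with hP1
    set Q1 : ℝ := ((∏ i, ψ (q i) : ℕ) : ℝ) with hQ1
    have hP0 : 0 < P1 := by rw [hP1]; exact_mod_cast hpos p hp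
    have hQ0 : 0 < Q1 := by rw [hQ1]; exact_mod_cast hpos q hq
    have h1 := hloga p hp
    have h2 := hloga q hq
    rw [← hP1] at h1
    rw [← hQ1] at h2
    rw [abs_le] at h1 h2
    rw [abs_lt] at hpq
    have h3 : κ * (Real.log P1 - Real.log Q1) ≤ (H + 2 * k * C1) * Real.exp (-(κ * (i * η))) := by
      linarith [h1.1, h1.2, h2.1, h2.2, hpq.1, hpq.2]
    have h4 : Real.log P1 - Real.log Q1 ≤ δ := by
      rw [hδ, hδ0, div_mul_eq_mul_div, le_div_iff₀ hκ]
      linarith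
    have h5 : P1 - Q1 ≤ Z' * δ := by
      have h6 : 1 - (Real.log P1 - Real.log Q1) ≤ Q1 / P1 := by
        have h7 := Real.add_one_le_exp (-(Real.log P1 - Real.log Q1))
        have h8 : Real.exp (-(Real.log P1 - Real.log Q1)) = Q1 / P1 := by
          rw [show -(Real.log P1 - Real.log Q1) = Real.log Q1 - Real.log P1 by ring, Real.exp_sub,
            Real.exp_log hQ0, Real.exp_log hP0]
        rw [h8] at h7
        linarith
      have h7 : P1 * (1 - δ) ≤ Q1 := by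
        calc P1 * (1 - δ) ≤ P1 * (Q1 / P1) := by
              refine mul_le_mul_of_nonneg_left ?_ hP0.le
              linarith
          _ = Q1 := by field_simp
      have h8 : P1 * δ ≤ Z' * δ := mul_le_mul_of_nonneg_right (hprodR p hp) hδ0'
      linarith
    have h6 : P1 ≤ Q1 + R := by linarith
    rw [hP1, hQ1] at h6
    exact_mod_cast h6
  have hcard : En S a k h ≤ (((Fintype.piFinset (fun _ : Fin k => S)) ×ˢ
      (Fintype.piFinset (fun _ : Fin k => S))).filter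
      (fun z => ∏ i, ψ (z.1 i) ≤ ∏ i, ψ (z.2 i) + R ∧ ∏ i, ψ (z.2 i) ≤ ∏ i, ψ (z.1 i) + R)).card := by
    unfold En
    refine Finset.card_le_card fun z hz => ?_
    rw [Finset.mem_filter, Finset.mem_product] at hz
    rw [Finset.mem_filter, Finset.mem_product]
    refine ⟨hz.1, hclose _ hz.1.1 _ hz.1.2 hz.2, hclose _ hz.1.2 _ hz.1.1 ?_⟩
    rw [abs_sub_comm]
    exact hz.2
  have hmain := pairs_le hψinj k Z R hZ1 (fun m hm => (hψ m hm).2.1) (fun p hp => by
    have h1 := (hprodR p hp).trans hZle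
    exact_mod_cast h1)
  have hEn : (En S a k h : ℝ) ≤ (2 * R + 1) * Z * (1 + Real.log Z) ^ (2 ^ (2 * k)) :=
    le_trans (by exact_mod_cast hcard) hmain
  -- the final estimate
  have hZexp : Z' = A' ^ k * Real.exp (k * (i * η)) := by
    rw [hZ', mul_pow, hX, ← Real.exp_nat_mul]
  have hkκ : 1 ≤ Real.exp ((k - κ) * (i * η)) := by
    apply Real.one_le_exp
    have : (0 : ℝ) ≤ i * η := by positivity
    have : 0 ≤ (k : ℝ) - κ := by linarith
    positivity
  have hZδ : Z' * δ = A' ^ k * δ0 * Real.exp ((k - κ) * (i * η)) := by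
    rw [hZexp, hδ]
    rw [show (k - κ) * (i * η) = k * (i * η) + -(κ * (i * η)) by ring, Real.exp_add]
    ring
  have e1 : 2 * (R : ℝ) + 1 ≤ (2 * A' ^ k * δ0 + 3) * Real.exp ((k - κ) * (i * η)) := by
    rw [hZδ] at hR2
    nlinarith
  have e2 : (Z : ℝ) ≤ 2 * A' ^ k * Real.exp (k * (i * η)) := by
    rw [hZexp] at hZ2
    linarith
  have e3 : 1 + Real.log Z ≤ K2 * ((i : ℝ) + 1) := by
    have h1 : Real.log Z ≤ Real.log (2 * A' ^ k * Real.exp (k * (i * η))) :=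
      Real.log_le_log (by exact_mod_cast hZ1) e2
    rw [Real.log_mul (by positivity) (Real.exp_pos _).ne', Real.log_exp,
      Real.log_mul (by norm_num) (by positivity), Real.log_pow] at h1
    have h2 : (k : ℝ) * (i * η) ≤ k * i := by
      have : (i : ℝ) * η ≤ i := by
        have : (0 : ℝ) ≤ i := by positivity
        nlinarith
      gcongr
    have h3 : (0 : ℝ) ≤ i := by positivity
    rw [hK2]
    nlinarith
  have hlogZ : 0 ≤ Real.log Z := Real.log_nonneg (by exact_mod_cast hZ1)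
  generalize 2 ^ (2 * k) = E at hEn ⊢
  have e4 : (1 + Real.log Z) ^ E ≤ (K2 * ((i : ℝ) + 1)) ^ E := pow_le_pow_left₀ (by linarith) e3 E
  have e5 : (2 * (R : ℝ) + 1) * Z ≤ ((2 * A' ^ k * δ0 + 3) * Real.exp ((k - κ) * (i * η))) *
        (2 * A' ^ k * Real.exp (k * (i * η))) := mul_le_mul e1 e2 (by positivity) (by positivity)
  have e6 : (2 * (R : ℝ) + 1) * Z * (1 + Real.log Z) ^ E ≤
      ((2 * A' ^ k * δ0 + 3) * Real.exp ((k - κ) * (i * η))) *
        (2 * A' ^ k * Real.exp (k * (i * η))) * (K2 * ((i : ℝ) + 1)) ^ E :=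
    mul_le_mul e5 e4 (by positivity) (by positivity)
  refine (hEn.trans e6).trans (le_of_eq ?_)
  rw [mul_pow, show (2 * k - κ) * (i * η) = (k - κ) * (i * η) + k * (i * η) by ring,
    Real.exp_add]
  ring

end Pool.Agent.Run7.h129.BH
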