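import Mathlib
import Pool.Agent.Run7.h129.BH.Ener

set_option autoImplicit false

/-!
# The mean square over a block
-/

open Filter Topology Set MeasureTheory Metric
open scoped Real

namespace Pool.Agent.Run7.h129.BH

open Pool.Agent.W66

lemma Reg_tendsto {a : ℕ → ℝ} {κ c : ℝ} (hreg : Reg a κ c) :
    Tendsto (fun m : ℕ => a m - κ * Real.log m) atTop (𝓝 c) := by
  obtain ⟨hκ, A, B, C1, hA, hC1, hev⟩ := hreg
  have hA0 : (0 : ℝ) < A := by exact_mod_cast hA
  have hlog : Tendsto (fun m : ℕ => Real.log (m : ℝ)) atTop atTop :=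
    Real.tendsto_log_atTop.comp tendsto_natCast_atTop_atTop
  have h1 : Tendsto (fun m : ℕ => a m - κ * Real.log ((A : ℝ) * m + B) - (c - κ * Real.log A))
      atTop (𝓝 0) := by
    have h2 : Tendsto (fun m : ℕ => C1 * Real.exp (-(κ * Real.log m))) atTop (𝓝 (C1 * 0)) := by
      refine Tendsto.const_mul _ (Real.tendsto_exp_neg_atTop_nhds_zero.comp ?_)
      exact hlog.const_mul_atTop hκ
    rw [mul_zero] at h2
    exact squeeze_zero_norm' (hev.mono fun m hm => by rw [Real.norm_eq_abs]; exact hm) h2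
  have h2 : Tendsto (fun m : ℕ => Real.log (((A : ℝ) * m + B) / (A * m))) atTop (𝓝 0) := by
    have h3 : Tendsto (fun m : ℕ => ((A : ℝ) * m + B) / (A * m)) atTop (𝓝 1) := by
      have h4 : Tendsto (fun m : ℕ => 1 + (B : ℝ) / A * (1 / (m : ℝ))) atTop (𝓝 (1 + (B : ℝ) / A * 0)) :=
        (tendsto_one_div_atTop_nhds_zero_nat.const_mul _).const_add _
      rw [mul_zero, add_zero] at h4
      refine h4.congr' ?_
      filter_upwards [eventually_gt_atTop 0] with m hm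
      have : (0 : ℝ) < m := by exact_mod_cast hm
      field_simp
    have h4 := (Real.continuousAt_log (one_ne_zero)).tendsto.comp h3
    rw [Real.log_one] at h4
    exact h4
  have h3 : Tendsto (fun m : ℕ => (a m - κ * Real.log ((A : ℝ) * m + B) - (c - κ * Real.log A)) +
      κ * Real.log (((A : ℝ) * m + B) / (A * m)) + c) atTop (𝓝 (0 + κ * 0 + c)) :=
    (h1.add (h2.const_mul κ)).add_const c
  rw [mul_zero, add_zero, zero_add] at h3
  refine h3.congr' ?_
  obtain ⟨m1, hm1⟩ := exists_nat_gt (|(B : ℝ)| / A)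
  filter_upwards [eventually_gt_atTop m1] with m hm
  have hm0 : (0 : ℝ) < m := by
    have : (0 : ℕ) < m := by omega
    exact_mod_cast this
  have h4 : (0 : ℝ) < A * m + B := by
    have h5 : (m1 : ℝ) < m := by exact_mod_cast hm
    rw [div_lt_iff₀ hA0] at hm1
    have h6 : -|(B : ℝ)| ≤ B := neg_abs_le _
    nlinarith
  rw [Real.log_div h4.ne' (by positivity), Real.log_mul hA0.ne' hm0.ne']
  ring

noncomputable def Yi (κ c η : ℝ) (l : ℤ) (i : ℕ) : ℝ := c + (l + κ * i) * η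

noncomputable def hi (κ c η : ℝ) (l : ℤ) (i : ℕ) : ℝ := η * Real.exp (-(Yi κ c η l i))

noncomputable def Ni (κ c η : ℝ) (l : ℤ) (i : ℕ) : ℕ := ⌈Real.exp (Yi κ c η l i + κ + 10)⌉₊

lemma hi_pos {η : ℝ} (hη : 0 < η) (κ c : ℝ) (l : ℤ) (i : ℕ) : 0 < hi κ c η l i := by
  unfold hi; positivity

lemma Yi_tendsto {κ η : ℝ} (hκ : 0 < κ) (hη : 0 < η) (c : ℝ) (l : ℤ) :
    Tendsto (fun i : ℕ => Yi κ c η l i) atTop atTop := by
  unfold Yi
  refine tendsto_atTop_add_const_left _ _ (Tendsto.atTop_mul_const hη ?_)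
  exact tendsto_atTop_add_const_left _ _ (tendsto_natCast_atTop_atTop.const_mul_atTop hκ)

lemma hi_tendsto {κ η : ℝ} (hκ : 0 < κ) (hη : 0 < η) (c : ℝ) (l : ℤ) :
    Tendsto (fun i : ℕ => hi κ c η l i) atTop (𝓝 0) := by
  have h1 := (Real.tendsto_exp_neg_atTop_nhds_zero.comp (Yi_tendsto hκ hη c l)).const_mul η
  rw [mul_zero] at h1
  exact h1

/-- location of the logarithms on a block -/
lemma a_blk {a : ℕ → ℝ} {κ c : ℝ} (hreg : Reg a κ c) {η : ℝ} (hη : 0 < η) {δ : ℝ} (hδ : 0 < δ) :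
    ∀ᶠ i : ℕ in atTop, ∀ m ∈ blk η i, c + κ * i * η - δ ≤ a m ∧ a m ≤ c + κ * (i + 1) * η + δ := by
  have h1 := Reg_tendsto hreg
  have hκ := hreg.1
  have h2 : ∀ᶠ m : ℕ in atTop, |a m - κ * Real.log m - c| < δ := by
    have := (Metric.tendsto_nhds.1 h1) δ hδ
    filter_upwards [this] with m hm
    rw [Real.dist_eq] at hm
    exact hm
  obtain ⟨m0, hm0⟩ := eventually_atTop.1 h2
  have h3 : Tendsto (fun i : ℕ => Real.exp (i * η)) atTop atTop :=
    Real.tendsto_exp_atTop.comp (Tendsto.atTop_mul_const hη tendsto_natCast_atTop_atTop)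
  filter_upwards [h3.eventually_ge_atTop (m0 : ℝ)] with i hi m hm
  rw [mem_blk] at hm
  have hm1 : m0 ≤ m := by
    have : (m0 : ℝ) ≤ m := hi.trans hm.1.le
    exact_mod_cast this
  have hmp : (0 : ℝ) < m := (Real.exp_pos _).trans hm.1
  have h4 := hm0 m hm1
  rw [abs_lt] at h4
  have h5 : (i : ℝ) * η ≤ Real.log m := (Real.le_log_iff_exp_le hmp).2 hm.1.le
  have h6 : Real.log m ≤ (i + 1) * η := (Real.log_le_iff_le_exp hmp).2 hm.2
  have h7 : κ * (i * η) ≤ κ * Real.log m := mul_le_mul_of_nonneg_left h5 hκ.le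
  have h8 : κ * Real.log m ≤ κ * ((i + 1) * η) := mul_le_mul_of_nonneg_left h6 hκ.le
  constructor <;> linarith

/-- the partition of unity -/
lemma TT_sub_one {h z : ℝ} (hh : 0 < h) (N u0 U : ℕ) (hu : u0 ≤ U) (hz1 : (u0 : ℝ) ≤ z - h)
    (hz2 : z + h ≤ U) : ∑ u ∈ Finset.Icc u0 U, DD u h N z = TT h N z - 1 := by
  have hone : ∀ v : ℝ, (∑ u ∈ Finset.Icc u0 U, hat (u - v)) * tri h (z - v) = tri h (z - v) := by
    intro v
    by_cases h1 : h ≤ |z - v|
    · rw [tri_zero_of hh h1, mul_zero]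
    · rw [not_le, abs_lt] at h1
      rw [hat_partition_rp u0 U hu (by linarith [h1.1]), rp_one (by linarith [h1.2]), one_mul]
  unfold DD TT
  rw [Finset.sum_sub_distrib]
  congr 1
  · rw [Finset.sum_comm]
    refine Finset.sum_congr rfl fun n _ => ?_
    have h1 : ∀ u ∈ Finset.Icc u0 U, ArithmeticFunction.vonMangoldt n / n * hat ((u : ℝ) - Real.log n) *
        tri h (z - Real.log n) = ArithmeticFunction.vonMangoldt n / n *
        (hat ((u : ℝ) - Real.log n) * tri h (z - Real.log n)) := fun u _ => by ring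
    rw [Finset.sum_congr rfl h1, ← Finset.mul_sum, ← Finset.sum_mul, hone]
  · rw [← integral_finsetSum]
    · have h1 : ∀ v : ℝ, ∑ u ∈ Finset.Icc u0 U, hat ((u : ℝ) - v) * tri h (z - v) = tri h (z - v) := by
        intro v
        rw [← Finset.sum_mul, hone]
      simp only [h1]
      rw [integral_sub_left_eq_self (fun v => tri h v) volume z]
      exact integral_tri hh
    · intro u _
      refine ((tri_integrable hh).comp_sub_left z).bdd_mul (c := 1)
        (hatu_continuous (u : ℝ)).aestronglyMeasurable (Eventually.of_forall fun v => ?_)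
      rw [Real.norm_of_nonneg (hat_nonneg _)]
      exact hat_le_one _

/-- the sum over the block -/
noncomputable def QB (h : ℝ) (N : ℕ) (S : Finset ℕ) (a : ℕ → ℝ) (x : ℝ) : ℝ :=
  ∑ m ∈ S, (TT h N (x + a m) - 1)

lemma QB_continuous (h : ℝ) (N : ℕ) (S : Finset ℕ) (a : ℕ → ℝ) : Continuous (QB h N S a) := by
  unfold QB
  refine continuous_finsetSum _ fun m _ => ?_
  exact ((TT_continuous h N).comp (by fun_prop)).sub continuous_const

lemma QB_sq {h : ℝ} (hh : 0 < h) (N u0 U : ℕ) (hu : u0 ≤ U) (S : Finset ℕ) (a : ℕ → ℝ) {x : ℝ}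
    (hx : ∀ m ∈ S, (u0 : ℝ) ≤ x + a m - h ∧ x + a m + h ≤ U) :
    QB h N S a x ^ 2 ≤ ((U - u0 + 1 : ℕ) : ℝ) * ∑ u ∈ Finset.Icc u0 U, FS u h N S a x ^ 2 := by
  have h1 : QB h N S a x = ∑ u ∈ Finset.Icc u0 U, FS u h N S a x := by
    unfold QB FS
    rw [Finset.sum_comm]
    refine Finset.sum_congr rfl fun m hm => ?_
    rw [TT_sub_one hh N u0 U hu (hx m hm).1 (hx m hm).2]
  rw [h1]
  have h2 := Pool.Agent.W66.sum_sq_le (Finset.Icc u0 U) (fun u => FS (u : ℝ) h N S a x)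
  rw [Nat.card_Icc] at h2
  have h3 : U + 1 - u0 = U - u0 + 1 := by omega
  rw [h3] at h2
  exact h2

lemma QB_int {h : ℝ} (hh : 0 < h) (N u0 U : ℕ) (hu : u0 ≤ U) (S : Finset ℕ) (a : ℕ → ℝ) {b1 b2 s : ℝ}
    (hx : ∀ x ∈ Ico b1 b2, ∀ m ∈ S, (u0 : ℝ) ≤ x - s + a m - h ∧ x - s + a m + h ≤ U) (F : ℝ)
    (hF : ∀ u ∈ Finset.Icc u0 U, ∫ x, FS u h N S a x ^ 2 ≤ F) :
    ∫ x in Ico b1 b2, QB h N S a (x - s) ^ 2 ≤ ((U - u0 + 1 : ℕ) : ℝ) ^ 2 * F := by
  have hint : ∀ u : ℕ, Integrable fun x => FS (u : ℝ) h N S a x ^ 2 := fun u =>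
    ((FS_continuous hh u N S a).memLp_of_hasCompactSupport (FS_compact hh u N S a)).integrable_sq
  have hint2 : ∀ u : ℕ, Integrable fun x => FS (u : ℝ) h N S a (x - s) ^ 2 := fun u =>
    (hint u).comp_sub_right s
  have h1 : ∫ x in Ico b1 b2, QB h N S a (x - s) ^ 2 ≤ ∫ x in Ico b1 b2,
      ((U - u0 + 1 : ℕ) : ℝ) * ∑ u ∈ Finset.Icc u0 U, FS u h N S a (x - s) ^ 2 := by
    refine setIntegral_mono_on ?_ ?_ measurableSet_Ico fun x hxm => QB_sq hh N u0 U hu S a (hx x hxm)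
    · refine Continuous.integrableOn_Icc ?_ |>.mono_set Ico_subset_Icc_self
      exact ((QB_continuous h N S a).comp (by fun_prop)).pow 2
    · exact ((integrable_finsetSum _ fun u _ => hint2 u).const_mul _).integrableOn
  have h2 : ∫ x in Ico b1 b2, ((U - u0 + 1 : ℕ) : ℝ) * ∑ u ∈ Finset.Icc u0 U, FS u h N S a (x - s) ^ 2 ≤
      ∫ x, ((U - u0 + 1 : ℕ) : ℝ) * ∑ u ∈ Finset.Icc u0 U, FS u h N S a (x - s) ^ 2 := by
    refine setIntegral_le_integral ((integrable_finsetSum _ fun u _ => hint2 u).const_mul _)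
      (Eventually.of_forall fun x => ?_)
    simp only [Pi.zero_apply]
    positivity
  refine (h1.trans h2).trans ?_
  rw [integral_const_mul, integral_finsetSum _ fun u _ => hint2 u]
  have h3 : ∀ u ∈ Finset.Icc u0 U, ∫ x, FS (u : ℝ) h N S a (x - s) ^ 2 ≤ F := by
    intro u hu'
    rw [integral_sub_right_eq_self (fun x => FS (u : ℝ) h N S a x ^ 2) s]
    exact hF u hu'
  have h4 := Finset.sum_le_sum h3
  rw [Finset.sum_const, nsmul_eq_mul, Nat.card_Icc] at h4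
  have h5 : U + 1 - u0 = U - u0 + 1 := by omega
  rw [h5] at h4
  calc _ ≤ ((U - u0 + 1 : ℕ) : ℝ) * (((U - u0 + 1 : ℕ) : ℝ) * F) := by gcongr
    _ = _ := by ring

/-- the first term of the mean square -/
lemma term_one {u Y K η : ℝ} (hη : 0 < η) (hu0 : 0 ≤ u) (hu1 : Y - 3 ≤ u) (hu2 : u ≤ Y + K) (hY : K + 10 ≤ Y)
    (hK : 0 ≤ K) : 2 * ((u + 1) ^ 2 * (u + 2) * Real.exp (1 - u) / (η * Real.exp (-Y))) + 2 ≤
      (16 * Real.exp 4 / η + 2) * Y ^ 3 := by
  have hY0 : 0 < Y := by linarith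
  have h1 : u + 1 ≤ 2 * Y := by linarith
  have h2 : u + 2 ≤ 2 * Y := by linarith
  have h3 : Real.exp (1 - u) ≤ Real.exp 4 * Real.exp (-Y) := by
    rw [← Real.exp_add]
    exact Real.exp_le_exp.2 (by linarith)
  have h4 : (u + 1) ^ 2 * (u + 2) * Real.exp (1 - u) ≤
      (2 * Y) ^ 2 * (2 * Y) * (Real.exp 4 * Real.exp (-Y)) := by gcongr
  have h5 : (u + 1) ^ 2 * (u + 2) * Real.exp (1 - u) / (η * Real.exp (-Y)) ≤
      (2 * Y) ^ 2 * (2 * Y) * (Real.exp 4 * Real.exp (-Y)) / (η * Real.exp (-Y)) := by gcongr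
  have h6 : (2 * Y) ^ 2 * (2 * Y) * (Real.exp 4 * Real.exp (-Y)) / (η * Real.exp (-Y)) =
      8 * Real.exp 4 / η * Y ^ 3 := by
    have := (Real.exp_pos (-Y)).ne'
    field_simp
    ring
  have h7 : (1 : ℝ) ≤ Y ^ 3 := one_le_pow₀ (by linarith)
  rw [h6] at h5
  have h8 : (16 * Real.exp 4 / η + 2) * Y ^ 3 = 2 * (8 * Real.exp 4 / η * Y ^ 3) + 2 * Y ^ 3 := by ring
  rw [h8]
  linarith

/-- the second term of the mean square -/
lemma term_two {u Y X2 Cm CE En0 h C'' i1 : ℝ} {D B E k : ℕ} (hD : D = (B + 3) * (k - 1) + E + B) (hk : 1 ≤ k)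
    (hCm : 0 < Cm) (hX2 : 0 < X2) (hY : 0 < Y) (hu1 : Y / 2 ≤ u) (hh : 0 < h) (hEn : 0 ≤ En0)
    (hi1 : 0 ≤ i1) (hi2 : i1 ≤ C'' * Y) (hCE : 0 ≤ CE)
    (hEn1 : En0 / h ≤ CE * X2 ^ k * i1 ^ E) :
    Cm / u ^ D / (X2 / Y ^ (B + 3)) ^ (k - 1) * (En0 / h) ≤
      Cm * 2 ^ D * CE * C'' ^ E * (X2 / Y ^ B) := by
  have hu0 : 0 < u := by linarith
  have h1 : 1 / u ^ D ≤ 2 ^ D / Y ^ D := by
    rw [← div_pow, one_div, ← inv_pow]
    refine pow_le_pow_left₀ (by positivity) ?_ D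
    rw [← one_div, div_le_div_iff₀ hu0 hY]
    linarith
  have h2 : i1 ^ E ≤ C'' ^ E * Y ^ E := by
    rw [← mul_pow]
    exact pow_le_pow_left₀ hi1 hi2 E
  have hX2k : X2 ^ k = X2 ^ (k - 1) * X2 := by
    rw [← pow_succ]; congr 1; omega
  calc Cm / u ^ D / (X2 / Y ^ (B + 3)) ^ (k - 1) * (En0 / h) =
      Cm * (1 / u ^ D) * (1 / (X2 / Y ^ (B + 3)) ^ (k - 1)) * (En0 / h) := by
        field_simp
    _ ≤ Cm * (2 ^ D / Y ^ D) * (1 / (X2 / Y ^ (B + 3)) ^ (k - 1)) * (CE * X2 ^ k * (C'' ^ E * Y ^ E)) := by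
        have h3 : En0 / h ≤ CE * X2 ^ k * (C'' ^ E * Y ^ E) := hEn1.trans (by gcongr)
        gcongr
    _ = Cm * 2 ^ D * CE * C'' ^ E * (X2 / Y ^ B) := by
        rw [hX2k, div_pow, ← pow_mul]
        have e1 : Y ^ D = Y ^ ((B + 3) * (k - 1)) * Y ^ E * Y ^ B := by rw [hD, pow_add, pow_add]
        rw [e1]
        have := hX2.ne'
        have := hY.ne'
        field_simp

theorem blk_sq {a : ℕ → ℝ} {κ c : ℝ} (hreg : Reg a κ c) {η : ℝ} (hη : 0 < η)
    (hηs : η ≤ Real.exp (-(κ + 6))) (l : ℤ) (B : ℕ) : ∃ C : ℝ, 0 < C ∧ ∀ σ : ℤ, ∀ᶠ i : ℕ in atTop,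
      ∀ S ⊆ blk η i, ∫ v in Ico (l * η) ((l + 1) * η),
        QB (hi κ c η l i) (Ni κ c η l i) S a (v - σ * hi κ c η l i) ^ 2 ≤
        C * Real.exp (2 * (i * η)) / ((i : ℝ) + 1) ^ B := by
  have hκ := hreg.1
  have hη1 : η ≤ 1 := hηs.trans (by rw [Real.exp_le_one_iff]; linarith)
  set k : ℕ := ⌈κ⌉₊ with hk
  have hk1 : 1 ≤ k := Nat.one_le_iff_ne_zero.2 (Nat.ceil_pos.2 hκ).ne'
  have hκk : κ ≤ k := Nat.le_ceil _
  have hkκ : (k : ℝ) ≤ κ + 1 := (Nat.ceil_lt_add_one hκ.le).le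
  set H : ℝ := η * Real.exp (-(c + l * η)) with hH
  obtain ⟨CE, hCE, E, i0, hE⟩ := En_le hreg hη hη1 k hκk H (by positivity)
  set D : ℕ := (B + 3) * (k - 1) + E + B with hD
  obtain ⟨Cm, hCm, hm⟩ := mean_sq D
  set K : ℕ := k + 4 with hK
  set C'' : ℝ := 4 / (κ * η) with hC''
  set CE' : ℝ := CE * Real.exp (c + l * η) / η with hCE'
  set C1 : ℝ := (16 * Real.exp 4 / η + 2) with hC1
  set C2 : ℝ := Cm * 2 ^ D * CE' * C'' ^ E with hC2
  refine ⟨((K : ℝ) + 3) ^ 2 * (C1 + C2) * C'' ^ B, by positivity, fun σ => ?_⟩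
  have hYt := Yi_tendsto hκ hη c l
  have hht := hi_tendsto hκ hη c l
  have ev1 : ∀ᶠ i : ℕ in atTop, (|(σ : ℝ)| + 1) * hi κ c η l i < 1 / 4 := by
    have h1 := hht.const_mul (|(σ : ℝ)| + 1)
    rw [mul_zero] at h1
    exact (tendsto_order.1 h1).2 _ (by norm_num)
  filter_upwards [ev1, hYt.eventually_ge_atTop ((K : ℝ) + 10), hYt.eventually_ge_atTop (6 - Real.log η),
    a_blk hreg hη (by norm_num : (0 : ℝ) < 1 / 4), eventually_ge_atTop i0,
    tendsto_natCast_atTop_atTop.eventually_ge_atTop (1 + (4 * |c + l * η|) / (κ * η))] with i e1 e2 e3 e4 e5 e6 S hS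
  set Y : ℝ := Yi κ c η l i with hY
  set h : ℝ := hi κ c η l i with hh
  set N : ℕ := Ni κ c η l i with hN
  have hYeq : Y = c + l * η + κ * (i * η) := by
    rw [hY]; unfold Yi; ring
  have hheq : h = η * Real.exp (-Y) := rfl
  have hh0 : 0 < h := hi_pos hη κ c l i
  have hK0 : (0 : ℝ) ≤ K := by positivity
  have hKk : (K : ℝ) = k + 4 := by rw [hK]; push_cast; ring
  have hY0 : 0 < Y := by linarith
  set fY : ℕ := ⌊Y⌋₊ with hfY
  have hf1 : (fY : ℝ) ≤ Y := Nat.floor_le hY0.le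
  have hf2 : Y < fY + 1 := Nat.lt_floor_add_one _
  have hf3 : 9 ≤ fY := by
    apply Nat.le_floor
    push_cast
    linarith
  set u0 : ℕ := fY - 2 with hu0
  set U : ℕ := fY + K with hU
  have hu0U : u0 ≤ U := by omega
  have hu0R : (u0 : ℝ) = fY - 2 := by
    rw [hu0]; push_cast [Nat.cast_sub (by omega : 2 ≤ fY)]; ring
  have hUR : (U : ℝ) = fY + K := by rw [hU]; push_cast; ring
  have hUu : U - u0 + 1 = K + 3 := by omega
  -- the window
  have hsig : |(σ : ℝ) * h| + h < 1 / 4 := by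
    rw [abs_mul, abs_of_pos hh0]
    linarith
  have hwin : ∀ v ∈ Ico ((l : ℝ) * η) ((l + 1) * η), ∀ m ∈ S, (u0 : ℝ) ≤ v - σ * h + a m - h ∧
      v - σ * h + a m + h ≤ U := by
    intro v hv m hmS
    obtain ⟨b1, b2⟩ := e4 m (hS hmS)
    have g1 := le_abs_self ((σ : ℝ) * h)
    have g2 := neg_abs_le ((σ : ℝ) * h)
    have g3 : κ * η ≤ κ := by nlinarith
    obtain ⟨hv1, hv2⟩ := hv
    have g4 : (l + 1 : ℝ) * η = l * η + η := by ring
    have g5 : c + κ * i * η - 1 / 4 = Y - l * η - 1 / 4 := by rw [hYeq]; ring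
    have g6 : c + κ * (i + 1) * η + 1 / 4 = Y - l * η + κ * η + 1 / 4 := by rw [hYeq]; ring
    rw [g5] at b1
    rw [g6] at b2
    constructor
    · linarith
    · linarith
  -- the mean square for each u
  set X2 : ℝ := Real.exp (2 * (i * η)) with hX2
  have hX20 : 0 < X2 := Real.exp_pos _
  have hC''0 : 0 < C'' := by positivity
  have hiY : (i : ℝ) + 1 ≤ C'' * Y := by
    have h1 : 4 * |c + l * η| / (κ * η) * (κ * η) = 4 * |c + l * η| := by field_simp
    have h2 : 4 * |c + l * η| + κ * η ≤ i * (κ * η) := by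
      have h3 : (1 + 4 * |c + l * η| / (κ * η)) * (κ * η) ≤ i * (κ * η) := by gcongr
      rw [add_mul, h1, one_mul] at h3
      linarith
    have h4 : -|c + l * η| ≤ c + l * η := neg_abs_le _
    have h5 : 0 < κ * η := by positivity
    rw [hC'', div_mul_eq_mul_div, le_div_iff₀ h5, hYeq]
    have h6 : 0 ≤ |c + l * η| := abs_nonneg _
    nlinarith
  have hF : ∀ u ∈ Finset.Icc u0 U, ∫ x, FS u h N S a x ^ 2 ≤ (C1 + C2) * (X2 / Y ^ B) := by
    intro u hu
    rw [Finset.mem_Icc] at hu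
    have hu1 : (u0 : ℝ) ≤ u := by exact_mod_cast hu.1
    have hu2 : (u : ℝ) ≤ U := by exact_mod_cast hu.2
    have hu3 : Y - 3 ≤ u := by linarith
    have hu4 : (u : ℝ) ≤ Y + K := by linarith
    have hu5 : (1 : ℝ) ≤ u := by linarith
    have c1 : Real.exp (-(2 * (u : ℝ))) ≤ h := by
      rw [hheq]
      calc Real.exp (-(2 * (u : ℝ))) ≤ Real.exp (Real.log η + -Y) := Real.exp_le_exp.2 (by linarith)
        _ = η * Real.exp (-Y) := by rw [Real.exp_add, Real.exp_log hη]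
    have c2 : h ≤ Real.exp (-((u : ℝ) + 1)) := by
      rw [hheq]
      calc η * Real.exp (-Y) ≤ Real.exp (-(κ + 6)) * Real.exp (-Y) := by gcongr
        _ = Real.exp (-(κ + 6) + -Y) := by rw [Real.exp_add]
        _ ≤ _ := Real.exp_le_exp.2 (by linarith)
    have c3 : Real.exp ((u : ℝ) + 1) ≤ N := by
      have h1 : Real.exp (Yi κ c η l i + κ + 10) ≤ N := Nat.le_ceil _
      refine le_trans (Real.exp_le_exp.2 ?_) h1
      rw [← hY]
      linarith
    have h1 := hm u h hu5 c1 c2 N c3 S a k hk1 (X2 / Y ^ (B + 3)) (by positivity)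
    refine h1.trans ?_
    rw [add_mul]
    refine add_le_add ?_ ?_
    · have h2 := term_one (u := u) (Y := Y) (K := K) hη (by linarith) hu3 hu4 e2 hK0
      rw [← hheq] at h2
      calc X2 / Y ^ (B + 3) * (2 * (((u : ℝ) + 1) ^ 2 * (u + 2) * Real.exp (1 - u) / h) + 2) ≤
            X2 / Y ^ (B + 3) * ((16 * Real.exp 4 / η + 2) * Y ^ 3) := by gcongr
        _ = C1 * (X2 / Y ^ B) := by
            rw [hC1, pow_add]
            field_simp
    · have h2 := term_two (u := u) (Y := Y) (X2 := X2) (Cm := Cm) (CE := CE') (En0 := En S a k h) (h := h)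
        (C'' := C'') (i1 := (i : ℝ) + 1) (D := D) (B := B) (E := E) (k := k) hD hk1 hCm hX20 hY0
        (by linarith) hh0 (by positivity) (by positivity) hiY (by positivity) ?_
      · rw [hC2]
        exact h2
      · have h3 := hE i e5 S hS h (by
          rw [hheq, hH, hYeq, show -(c + l * η + κ * (i * η)) = -(c + l * η) + -(κ * (i * η)) by ring,
            Real.exp_add]
          exact le_of_eq (by ring))
        rw [div_le_iff₀ hh0]
        refine h3.trans (le_of_eq ?_)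
        have g1 : Real.exp (-(c + l * η + κ * (i * η))) =
            Real.exp (-(c + l * η)) * Real.exp (-(κ * (i * η))) := by
          rw [← Real.exp_add]; congr 1; ring
        have g2 : Real.exp ((2 * k - κ) * (i * η)) =
            Real.exp (k * (2 * (i * η))) * Real.exp (-(κ * (i * η))) := by
          rw [← Real.exp_add]; congr 1; ring
        rw [hCE', hheq, hX2, ← Real.exp_nat_mul, hYeq, g1, g2]
        have h4 : Real.exp (c + l * η) * Real.exp (-(c + l * η)) = 1 := by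
          rw [← Real.exp_add]; simp
        calc CE * (Real.exp (k * (2 * (i * η))) * Real.exp (-(κ * (i * η)))) * ((i : ℝ) + 1) ^ E =
            CE * (Real.exp (k * (2 * (i * η))) * Real.exp (-(κ * (i * η)))) * ((i : ℝ) + 1) ^ E * 1 := by
              ring
          _ = CE * (Real.exp (k * (2 * (i * η))) * Real.exp (-(κ * (i * η)))) * ((i : ℝ) + 1) ^ E *
              (Real.exp (c + l * η) * Real.exp (-(c + l * η))) := by rw [h4]
          _ = _ := by
              generalize Real.exp (c + l * η) = A3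
              generalize Real.exp (-(c + l * η)) = A4
              generalize Real.exp (-(κ * (i * η))) = A2
              generalize Real.exp (k * (2 * (i * η))) = A1
              generalize ((i : ℝ) + 1) ^ E = A5
              field_simp
  have hfin := QB_int hh0 N u0 U hu0U S a (s := σ * h) hwin _ hF
  rw [hUu] at hfin
  refine hfin.trans ?_
  have h1 : 1 / Y ^ B ≤ C'' ^ B / ((i : ℝ) + 1) ^ B := by
    rw [div_le_div_iff₀ (by positivity) (by positivity), one_mul, ← mul_pow]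
    exact pow_le_pow_left₀ (by positivity) hiY B
  have hCC : 0 < C1 + C2 := by positivity
  calc (((K + 3 : ℕ) : ℝ)) ^ 2 * ((C1 + C2) * (X2 / Y ^ B)) =
      ((K : ℝ) + 3) ^ 2 * (C1 + C2) * X2 * (1 / Y ^ B) := by push_cast; ring
    _ ≤ ((K : ℝ) + 3) ^ 2 * (C1 + C2) * X2 * (C'' ^ B / ((i : ℝ) + 1) ^ B) := by gcongr
    _ = _ := by ring

end Pool.Agent.Run7.h129.BH
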