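import Mathlib
import Pool.Agent.Run7.h129.BH.Blk

set_option autoImplicit false

/-!
# Almost every dilation
-/

open Filter Topology Set MeasureTheory Metric
open scoped Real ENNReal

namespace Pool.Agent.Run7.h129.BH

open Pool.Agent.W66

lemma ae_enn {μ : Measure ℝ} (g : ℕ → ℝ → ℝ≥0∞) (hm : ∀ i, AEMeasurable (g i) μ)
    (h : ∑' i, ∫⁻ v, g i v ∂μ ≠ ∞) : ∀ᵐ v ∂μ, Tendsto (fun i => g i v) atTop (𝓝 0) := by
  have h1 : ∫⁻ v, ∑' i, g i v ∂μ ≠ ∞ := by rwa [lintegral_tsum hm]
  have h2 := ae_lt_top' (AEMeasurable.ennreal_tsum hm) h1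
  filter_upwards [h2] with v hv
  exact ENNReal.tendsto_atTop_zero_of_tsum_ne_top hv.ne

lemma ae_real {μ : Measure ℝ} (g : ℕ → ℝ → ℝ) (b : ℕ → ℝ) (hg0 : ∀ i v, 0 ≤ g i v)
    (hgi : ∀ i, Integrable (g i) μ) (hb : Summable b) (h : ∀ᶠ i in atTop, ∫ v, g i v ∂μ ≤ b i) :
    ∀ᵐ v ∂μ, Tendsto (fun i => g i v) atTop (𝓝 0) := by
  have hs : Summable fun i => ∫ v, g i v ∂μ := by
    refine hb.of_norm_bounded_eventually_nat ?_
    filter_upwards [h] with i hi
    rw [Real.norm_of_nonneg (integral_nonneg (hg0 i))]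
    exact hi
  have h1 := ae_enn (μ := μ) (fun i v => ENNReal.ofReal (g i v))
    (fun i => (hgi i).aestronglyMeasurable.aemeasurable.ennreal_ofReal) (by
      have e : ∀ i, ∫⁻ v, ENNReal.ofReal (g i v) ∂μ = ENNReal.ofReal (∫ v, g i v ∂μ) := fun i =>
        (ofReal_integral_eq_lintegral_ofReal (hgi i) (Eventually.of_forall (hg0 i))).symm
      simp only [e]
      rw [← ENNReal.ofReal_tsum_of_nonneg (fun i => integral_nonneg (hg0 i)) hs]
      exact ENNReal.ofReal_ne_top)
  filter_upwards [h1] with v hv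
  have h2 := (ENNReal.tendsto_toReal ENNReal.zero_ne_top).comp hv
  rw [ENNReal.toReal_zero] at h2
  refine h2.congr fun i => ?_
  simp only [Function.comp]
  exact ENNReal.toReal_ofReal (hg0 i v)

theorem ae_QB {a : ℕ → ℝ} {κ c : ℝ} (hreg : Reg a κ c) {η : ℝ} (hη : 0 < η)
    (hηs : η ≤ Real.exp (-(κ + 6))) (l : ℤ) (S : ℕ → Finset ℕ) (hS : ∀ i, S i ⊆ blk η i) (C0 : ℕ)
    (hd : ∀ᶠ i : ℕ in atTop, Real.exp (i * η) ≤ (S i).card * ((i : ℝ) + 1) ^ C0) :
    ∀ᵐ v ∂(volume.restrict (Ico ((l : ℝ) * η) ((l + 1) * η))), ∀ σ : ℤ,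
      Tendsto (fun i => QB (hi κ c η l i) (Ni κ c η l i) (S i) a (v - σ * hi κ c η l i) / (S i).card)
        atTop (𝓝 0) := by
  rw [ae_all_iff]
  intro σ
  obtain ⟨C, hC, hCσ⟩ := blk_sq hreg hη hηs l (2 * C0 + 2)
  have hcont : ∀ i, Continuous fun v => (QB (hi κ c η l i) (Ni κ c η l i) (S i) a
      (v - σ * hi κ c η l i) / (S i).card) ^ 2 := fun i =>
    (((QB_continuous _ _ _ _).comp (by fun_prop)).div_const _).pow 2
  have h1 := ae_real (μ := volume.restrict (Ico ((l : ℝ) * η) ((l + 1) * η)))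
    (fun i v => (QB (hi κ c η l i) (Ni κ c η l i) (S i) a (v - σ * hi κ c η l i) / (S i).card) ^ 2)
    (fun i => C * (1 / ((i + 1 : ℕ) : ℝ) ^ 2)) (fun i v => by positivity)
    (fun i => ((hcont i).integrableOn_Icc.mono_set Ico_subset_Icc_self))
    (((summable_nat_add_iff 1).2 (Real.summable_one_div_nat_pow.2 (by norm_num))).mul_left C) ?_
  · filter_upwards [h1] with v hv
    have h2 := hv.sqrt
    rw [Real.sqrt_zero] at h2
    have h3 : Tendsto (fun i => |QB (hi κ c η l i) (Ni κ c η l i) (S i) a (v - σ * hi κ c η l i) /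
        (S i).card|) atTop (𝓝 0) := by
      refine h2.congr fun i => ?_
      exact Real.sqrt_sq_eq_abs _
    exact (tendsto_zero_iff_abs_tendsto_zero _).2 h3
  · filter_upwards [hCσ σ, hd] with i h2 h3
    have h4 := h2 (S i) (hS i)
    have hcard : 0 < ((S i).card : ℝ) := by
      by_contra hcon
      have h5 : ((S i).card : ℝ) = 0 := le_antisymm (not_lt.1 hcon) (by positivity)
      rw [h5, zero_mul] at h3
      exact absurd h3 (not_le.2 (Real.exp_pos _))
    have e1 : ∀ v, (QB (hi κ c η l i) (Ni κ c η l i) (S i) a (v - σ * hi κ c η l i) / (S i).card) ^ 2 =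
        1 / ((S i).card : ℝ) ^ 2 * QB (hi κ c η l i) (Ni κ c η l i) (S i) a
          (v - σ * hi κ c η l i) ^ 2 := fun v => by
      rw [div_pow]; ring
    simp only [e1]
    rw [integral_const_mul]
    have h5 : 1 / ((S i).card : ℝ) ^ 2 ≤ ((i : ℝ) + 1) ^ (2 * C0) / Real.exp (2 * (i * η)) := by
      rw [div_le_div_iff₀ (by positivity) (Real.exp_pos _), one_mul]
      calc Real.exp (2 * (i * η)) = Real.exp (i * η) ^ 2 := by
            rw [← Real.exp_nat_mul]; norm_num
        _ ≤ ((S i).card * ((i : ℝ) + 1) ^ C0) ^ 2 := by gcongr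
        _ = _ := by rw [mul_pow, ← pow_mul]; ring
    calc 1 / ((S i).card : ℝ) ^ 2 * _ ≤ ((i : ℝ) + 1) ^ (2 * C0) / Real.exp (2 * (i * η)) *
          (C * Real.exp (2 * (i * η)) / ((i : ℝ) + 1) ^ (2 * C0 + 2)) := by
          refine mul_le_mul h5 h4 (integral_nonneg fun v => by positivity) (by positivity)
      _ = C * (1 / ((i + 1 : ℕ) : ℝ) ^ 2) := by
          push_cast
          rw [pow_add]
          have := (Real.exp_pos (2 * (i * η))).ne'
          field_simp

/-- the weights of the prime powers -/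
noncomputable def pw (n : ℕ) : ℝ := if n.Prime then 0 else ArithmeticFunction.vonMangoldt n / n

lemma pw_nonneg (n : ℕ) : 0 ≤ pw n := by
  unfold pw
  split_ifs
  · exact le_rfl
  · exact div_nonneg ArithmeticFunction.vonMangoldt_nonneg (Nat.cast_nonneg _)

lemma pw_summable : Summable pw := by
  have h1 := ArithmeticFunction.vonMangoldt.summable_residueClass_non_primes_div (q := 1) 0
  refine h1.congr fun n => ?_
  unfold pw
  by_cases hn : n.Prime
  · simp [hn]
  · rw [if_neg hn, if_neg hn]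
    congr 1
    unfold ArithmeticFunction.vonMangoldt.residueClass
    rw [Set.indicator_of_mem]
    exact Subsingleton.elim _ _

/-- the prime power part of the smoothed sum -/
noncomputable def PP (h : ℝ) (N : ℕ) (z : ℝ) : ℝ :=
  ∑ n ∈ Finset.Ioc 0 N, pw n * tri h (z - Real.log n)

/-- the prime part of the smoothed sum -/
noncomputable def PR (h : ℝ) (N : ℕ) (z : ℝ) : ℝ :=
  ∑ p ∈ (Finset.Ioc 0 N).filter Nat.Prime, Real.log p / p * tri h (z - Real.log p)

lemma TT_split (h : ℝ) (N : ℕ) (z : ℝ) : TT h N z = PR h N z + PP h N z := by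
  unfold TT PR PP
  rw [Finset.sum_filter, ← Finset.sum_add_distrib]
  refine Finset.sum_congr rfl fun n _ => ?_
  unfold pw
  by_cases hn : n.Prime
  · rw [if_pos hn, if_pos hn, ArithmeticFunction.vonMangoldt_apply_prime hn]
    ring
  · rw [if_neg hn, if_neg hn]
    ring

lemma card_near {x r : ℝ} (hr : 0 ≤ r) (I : ℕ) :
    (((Finset.range I).filter (fun i : ℕ => |(i : ℝ) - x| ≤ r)).card : ℝ) ≤ 2 * r + 1 := by
  classical
  have h1 : ((Finset.range I).filter (fun i : ℕ => |(i : ℝ) - x| ≤ r)).card ≤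
      (Finset.Icc ⌈x - r⌉ ⌊x + r⌋).card := by
    refine Finset.card_le_card_of_injOn (fun i : ℕ => (i : ℤ)) ?_ ?_
    · intro i hi
      rw [Finset.mem_coe, Finset.mem_filter, abs_le] at hi
      rw [Finset.mem_coe, Finset.mem_Icc, Int.ceil_le, Int.le_floor]
      push_cast
      constructor
      · linarith [hi.2.1]
      · linarith [hi.2.2]
    · intro i _ j _ hij
      simpa using hij
  have h2 : ((Finset.Icc ⌈x - r⌉ ⌊x + r⌋).card : ℝ) ≤ 2 * r + 1 := by
    rw [Int.card_Icc]
    rcases le_or_gt 0 (⌊x + r⌋ + 1 - ⌈x - r⌉) with h3 | h3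
    · have h4 : (((⌊x + r⌋ + 1 - ⌈x - r⌉).toNat : ℤ) : ℝ) = ((⌊x + r⌋ + 1 - ⌈x - r⌉ : ℤ) : ℝ) := by
        rw [Int.toNat_of_nonneg h3]
      rw [Int.cast_natCast] at h4
      rw [h4]
      push_cast
      have h5 : (⌊x + r⌋ : ℝ) ≤ x + r := Int.floor_le _
      have h6 : x - r ≤ (⌈x - r⌉ : ℝ) := Int.le_ceil _
      linarith
    · rw [Int.toNat_of_nonpos h3.le]
      push_cast
      linarith
  exact le_trans (by exact_mod_cast h1) h2

/-- the part of the prime powers near `e^Y` -/
noncomputable def bw (κ c η : ℝ) (l : ℤ) (i : ℕ) : ℝ :=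
  ∑' n : ℕ, if |Real.log n - Yi κ c η l i| ≤ κ + 3 then pw n else 0

lemma bw_term_summable (κ c η : ℝ) (l : ℤ) (i : ℕ) :
    Summable fun n : ℕ => if |Real.log n - Yi κ c η l i| ≤ κ + 3 then pw n else 0 := by
  refine Summable.of_nonneg_of_le (fun n => ?_) (fun n => ?_) pw_summable
  · split_ifs
    · exact pw_nonneg n
    · exact le_rfl
  · split_ifs
    · exact le_rfl
    · exact pw_nonneg n

lemma bw_summable {κ η : ℝ} (hκ : 0 < κ) (hη : 0 < η) (c : ℝ) (l : ℤ) : Summable (bw κ c η l) := by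
  refine summable_of_sum_range_le (c := (2 * ((κ + 3) / (κ * η)) + 1) * ∑' n, pw n) (fun i => ?_)
    (fun I => ?_)
  · unfold bw
    refine tsum_nonneg fun n => ?_
    split_ifs
    · exact pw_nonneg n
    · exact le_rfl
  · unfold bw
    rw [← Summable.tsum_finsetSum (fun i _ => bw_term_summable κ c η l i), ← tsum_mul_left]
    refine Summable.tsum_le_tsum (fun n => ?_) (summable_sum fun i _ => bw_term_summable κ c η l i)
      (pw_summable.mul_left _)
    rw [← Finset.sum_filter, Finset.sum_const, nsmul_eq_mul]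
    refine mul_le_mul_of_nonneg_right ?_ (pw_nonneg n)
    have h0 : 0 < κ * η := by positivity
    have h1 := card_near (x := (Real.log n - c - l * η) / (κ * η)) (r := (κ + 3) / (κ * η))
      (by positivity) I
    refine le_trans ?_ h1
    have h2 : (Finset.range I).filter (fun i : ℕ => |Real.log n - Yi κ c η l i| ≤ κ + 3) =
        (Finset.range I).filter (fun i : ℕ => |(i : ℝ) - (Real.log n - c - l * η) / (κ * η)| ≤
          (κ + 3) / (κ * η)) := by
      refine Finset.filter_congr fun i _ => ?_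
      have h3 : (i : ℝ) - (Real.log n - c - l * η) / (κ * η) =
          (-(Real.log n - Yi κ c η l i)) / (κ * η) := by
        unfold Yi
        field_simp
        ring
      rw [h3, abs_div, abs_neg, abs_of_pos h0, div_le_div_iff_of_pos_right h0]
    rw [h2]

lemma tri_shift_integrable {h : ℝ} (hh : 0 < h) (s : ℝ) : Integrable fun v => tri h (v - s) :=
  (tri_integrable hh).comp_sub_right s

/-- the sum of the prime powers over a block -/
noncomputable def QP (h : ℝ) (N : ℕ) (S : Finset ℕ) (a : ℕ → ℝ) (x : ℝ) : ℝ :=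
  ∑ m ∈ S, PP h N (x + a m)

lemma QP_nonneg {h : ℝ} (hh : 0 < h) (N : ℕ) (S : Finset ℕ) (a : ℕ → ℝ) (x : ℝ) : 0 ≤ QP h N S a x :=
  Finset.sum_nonneg fun m _ => Finset.sum_nonneg fun n _ => mul_nonneg (pw_nonneg n) (tri_nonneg hh _)

lemma QP_int {h : ℝ} (hh : 0 < h) (N : ℕ) (S : Finset ℕ) (a : ℕ → ℝ) {b1 b2 s Y w : ℝ}
    (hx : ∀ x ∈ Ico b1 b2, ∀ m ∈ S, ∀ n : ℕ, w < |Real.log n - Y| → h ≤ |x - s + a m - Real.log n|) :
    ∫ x in Ico b1 b2, QP h N S a (x - s) ≤
      S.card * ∑' n : ℕ, if |Real.log n - Y| ≤ w then pw n else 0 := by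
  have hsum : Summable fun n : ℕ => if |Real.log n - Y| ≤ w then pw n else 0 := by
    refine Summable.of_nonneg_of_le (fun n => ?_) (fun n => ?_) pw_summable
    · split_ifs
      · exact pw_nonneg n
      · exact le_rfl
    · split_ifs
      · exact le_rfl
      · exact pw_nonneg n
  have hshift : ∀ (m n : ℕ), Integrable fun x : ℝ => tri h (x - s + a m - Real.log n) := by
    intro m n
    refine (tri_shift_integrable hh (s - a m + Real.log n)).congr (Eventually.of_forall fun x => ?_)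
    simp only
    congr 1
    ring
  have h1 : ∫ x in Ico b1 b2, QP h N S a (x - s) = ∑ m ∈ S, ∑ n ∈ Finset.Ioc 0 N,
      pw n * ∫ x in Ico b1 b2, tri h (x - s + a m - Real.log n) := by
    unfold QP PP
    rw [integral_finsetSum _ fun m _ => integrable_finsetSum _ fun n _ =>
      ((hshift m n).const_mul _).integrableOn]
    refine Finset.sum_congr rfl fun m _ => ?_
    rw [integral_finsetSum _ fun n _ => ((hshift m n).const_mul _).integrableOn]
    refine Finset.sum_congr rfl fun n _ => ?_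
    rw [integral_const_mul]
  rw [h1]
  have h2 : ∀ m ∈ S, ∑ n ∈ Finset.Ioc 0 N, pw n * ∫ x in Ico b1 b2, tri h (x - s + a m - Real.log n) ≤
      ∑' n : ℕ, if |Real.log n - Y| ≤ w then pw n else 0 := by
    intro m hm
    have h3 : ∀ n : ℕ, pw n * ∫ x in Ico b1 b2, tri h (x - s + a m - Real.log n) ≤
        if |Real.log n - Y| ≤ w then pw n else 0 := by
      intro n
      split_ifs with h4
      · have h5 : ∫ x in Ico b1 b2, tri h (x - s + a m - Real.log n) ≤ 1 := by
          calc ∫ x in Ico b1 b2, tri h (x - s + a m - Real.log n) ≤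
                ∫ x, tri h (x - s + a m - Real.log n) :=
                setIntegral_le_integral (hshift m n) (Eventually.of_forall fun x => tri_nonneg hh _)
            _ = ∫ x, tri h (x - (s - a m + Real.log n)) := by
                congr 1
                ext x
                congr 1
                ring
            _ = ∫ x, tri h x := integral_sub_right_eq_self (fun x => tri h x) _
            _ = 1 := integral_tri hh
        have := pw_nonneg n
        nlinarith
      · have h5 : ∫ x in Ico b1 b2, tri h (x - s + a m - Real.log n) = 0 := by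
          refine setIntegral_eq_zero_of_forall_eq_zero fun x hxm => ?_
          exact tri_zero_of hh (hx x hxm m hm n (not_le.1 h4))
        rw [h5, mul_zero]
    exact (Finset.sum_le_sum fun n _ => h3 n).trans (hsum.sum_le_tsum _ fun n _ => by
      split_ifs
      · exact pw_nonneg n
      · exact le_rfl)
  refine (Finset.sum_le_sum h2).trans (le_of_eq ?_)
  rw [Finset.sum_const, nsmul_eq_mul]

/-- the logarithms of the window -/
lemma window {a : ℕ → ℝ} {κ c : ℝ} (hreg : Reg a κ c) {η : ℝ} (hη : 0 < η) (hη1 : η ≤ 1) (l σ : ℤ)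
    {δ : ℝ} (hδ : 0 < δ) : ∀ᶠ i : ℕ in atTop, ∀ v ∈ Ico ((l : ℝ) * η) ((l + 1) * η), ∀ m ∈ blk η i,
      Yi κ c η l i - δ ≤ v - σ * hi κ c η l i + a m - hi κ c η l i ∧
      v - σ * hi κ c η l i + a m + hi κ c η l i ≤ Yi κ c η l i + (κ + 1) * η + δ := by
  have hκ := hreg.1
  have ev1 : ∀ᶠ i : ℕ in atTop, (|(σ : ℝ)| + 1) * hi κ c η l i < δ / 2 := by
    have h1 := (hi_tendsto hκ hη c l).const_mul (|(σ : ℝ)| + 1)
    rw [mul_zero] at h1
    exact (tendsto_order.1 h1).2 _ (by positivity)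
  filter_upwards [ev1, a_blk hreg hη (δ := δ / 2) (by positivity)] with i e1 e2 v hv m hm
  obtain ⟨b1, b2⟩ := e2 m hm
  have hh0 := hi_pos hη κ c l i
  have hsig : |(σ : ℝ) * hi κ c η l i| + hi κ c η l i < δ / 2 := by
    rw [abs_mul, abs_of_pos hh0]
    linarith
  have g1 := le_abs_self ((σ : ℝ) * hi κ c η l i)
  have g2 := neg_abs_le ((σ : ℝ) * hi κ c η l i)
  obtain ⟨hv1, hv2⟩ := hv
  have g5 : Yi κ c η l i = l * η + (c + κ * i * η) := by unfold Yi; ring
  rw [g5]
  constructor
  · linarith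
  · nlinarith

theorem ae_QP {a : ℕ → ℝ} {κ c : ℝ} (hreg : Reg a κ c) {η : ℝ} (hη : 0 < η) (hη1 : η ≤ 1) (l : ℤ)
    (S : ℕ → Finset ℕ) (hS : ∀ i, S i ⊆ blk η i) :
    ∀ᵐ v ∂(volume.restrict (Ico ((l : ℝ) * η) ((l + 1) * η))), ∀ σ : ℤ,
      Tendsto (fun i => QP (hi κ c η l i) (Ni κ c η l i) (S i) a (v - σ * hi κ c η l i) / (S i).card)
        atTop (𝓝 0) := by
  have hκ := hreg.1
  rw [ae_all_iff]
  intro σ
  have hcont : ∀ i, Continuous fun v => QP (hi κ c η l i) (Ni κ c η l i) (S i) a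
      (v - σ * hi κ c η l i) / (S i).card := by
    intro i
    refine Continuous.div_const ?_ _
    unfold QP PP
    refine continuous_finsetSum _ fun m _ => continuous_finsetSum _ fun n _ => ?_
    exact continuous_const.mul ((tri_continuous _).comp (by fun_prop))
  refine ae_real _ (bw κ c η l) (fun i v => ?_) (fun i =>
    (hcont i).integrableOn_Icc.mono_set Ico_subset_Icc_self) (bw_summable hκ hη c l) ?_
  · exact div_nonneg (QP_nonneg (hi_pos hη κ c l i) _ _ _ _) (by positivity)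
  · filter_upwards [window hreg hη hη1 l σ (δ := 1) one_pos] with i hw
    have hh0 := hi_pos hη κ c l i
    have h1 := QP_int hh0 (Ni κ c η l i) (S i) a (b1 := (l : ℝ) * η) (b2 := (l + 1) * η)
      (s := σ * hi κ c η l i) (Y := Yi κ c η l i) (w := κ + 3) (fun x hx m hm n hn => by
        obtain ⟨g1, g2⟩ := hw x hx m (hS i hm)
        have g3 : (κ + 1) * η ≤ κ + 1 := by nlinarith
        by_contra hcon
        rw [not_le, abs_lt] at hcon
        rw [lt_abs] at hn
        rcases hn with hn | hn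
        · linarith [hcon.1]
        · linarith [hcon.2])
    have e1 : ∀ v, QP (hi κ c η l i) (Ni κ c η l i) (S i) a (v - σ * hi κ c η l i) / (S i).card =
        1 / ((S i).card : ℝ) * QP (hi κ c η l i) (Ni κ c η l i) (S i) a (v - σ * hi κ c η l i) :=
      fun v => by ring
    simp only [e1]
    rw [integral_const_mul]
    have hb0 : 0 ≤ bw κ c η l i := by
      unfold bw
      refine tsum_nonneg fun n => ?_
      split_ifs
      · exact pw_nonneg n
      · exact le_rfl
    calc 1 / ((S i).card : ℝ) * _ ≤ 1 / ((S i).card : ℝ) * ((S i).card * bw κ c η l i) := by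
          refine mul_le_mul_of_nonneg_left h1 (by positivity)
      _ ≤ bw κ c η l i := by
          rcases Nat.eq_zero_or_pos (S i).card with h2 | h2
          · rw [h2]; simpa using hb0
          · have : ((S i).card : ℝ) ≠ 0 := by positivity
            field_simp
            exact le_rfl

/-- the sum of the primes over a block -/
noncomputable def QR (h : ℝ) (N : ℕ) (S : Finset ℕ) (a : ℕ → ℝ) (x : ℝ) : ℝ :=
  ∑ m ∈ S, PR h N (x + a m)

/-- the law of large numbers for almost every dilation -/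
theorem ae_QR {a : ℕ → ℝ} {κ c : ℝ} (hreg : Reg a κ c) {η : ℝ} (hη : 0 < η)
    (hηs : η ≤ Real.exp (-(κ + 6))) (l : ℤ) (S : ℕ → Finset ℕ) (hS : ∀ i, S i ⊆ blk η i) (C0 : ℕ)
    (hd : ∀ᶠ i : ℕ in atTop, Real.exp (i * η) ≤ (S i).card * ((i : ℝ) + 1) ^ C0) :
    ∀ᵐ v ∂(volume.restrict (Ico ((l : ℝ) * η) ((l + 1) * η))), ∀ σ : ℤ,
      Tendsto (fun i => QR (hi κ c η l i) (Ni κ c η l i) (S i) a (v - σ * hi κ c η l i) / (S i).card)
        atTop (𝓝 1) := by
  have hκ := hreg.1
  have hη1 : η ≤ 1 := hηs.trans (by rw [Real.exp_le_one_iff]; linarith)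
  filter_upwards [ae_QB hreg hη hηs l S hS C0 hd, ae_QP hreg hη hη1 l S hS] with v h1 h2 σ
  have h3 := ((h1 σ).sub (h2 σ)).add_const 1
  rw [sub_zero, zero_add] at h3
  refine h3.congr' ?_
  filter_upwards [hd] with i hi'
  have hcard : ((S i).card : ℝ) ≠ 0 := by
    intro h5
    rw [h5, zero_mul] at hi'
    exact absurd hi' (not_le.2 (Real.exp_pos _))
  have h4 : QB (hi κ c η l i) (Ni κ c η l i) (S i) a (v - σ * hi κ c η l i) =
      QR (hi κ c η l i) (Ni κ c η l i) (S i) a (v - σ * hi κ c η l i) +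
      QP (hi κ c η l i) (Ni κ c η l i) (S i) a (v - σ * hi κ c η l i) - (S i).card := by
    unfold QB QR QP
    rw [← Finset.sum_add_distrib]
    have h5 : ((S i).card : ℝ) = ∑ m ∈ S i, (1 : ℝ) := by simp
    rw [h5, ← Finset.sum_sub_distrib]
    refine Finset.sum_congr rfl fun m _ => ?_
    rw [TT_split]
  rw [h4]
  field_simp
  ring

end Pool.Agent.Run7.h129.BH
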